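import Pool.Agent.T2h50.CHG.Concrete

set_option autoImplicit false

/-!
# Infinite `C_h[g]` sequences of density `n ^ (α - ε)`
-/

namespace Pool.Agent.T2h50.CHG

open Finset Filter

/-- A grid `X + k` in the image of `A` gives an admissible grid in `A`. -/
lemma no_translates {a b : ℕ} (A : Set ℕ)
    (hA : ∀ (w : ℕ) (d : Fin a → ℕ) (e : Fin b → ℕ), (∀ i, 0 < d i) → (∀ j, 0 < e j) →
        Function.Injective d → Function.Injective e → ¬ ∀ i j, pt w d e i j ∈ A)
    (X : Finset ℤ) (hX : X.card = a + 1) (k : Fin (b + 1) → ℤ) (hk : Function.Injective k) :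
    ¬ (∀ i : Fin (b + 1), ∀ x ∈ X, x + k i ∈ (fun n : ℕ => (n : ℤ)) '' A) := by
  classical
  intro h
  have hXne : X.Nonempty := by rw [← Finset.card_pos]; omega
  set x0 := X.min' hXne with hx0
  have hx0X : x0 ∈ X := X.min'_mem hXne
  obtain ⟨i0, hi0⟩ := Finite.exists_min k
  have hcard : (X.erase x0).card = a := by
    rw [Finset.card_erase_of_mem hx0X, hX]; rfl
  set en : Fin a ≃ (X.erase x0) := (Finset.equivFinOfCardEq hcard).symm with hen
  have hlt : ∀ i, x0 < (en i : ℤ) := by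
    intro i
    have h1 := (en i).2
    rw [Finset.mem_erase] at h1
    exact lt_of_le_of_ne (X.min'_le _ h1.2) (Ne.symm h1.1)
  have hkt : ∀ j : Fin b, k i0 < k (i0.succAbove j) := by
    intro j
    refine lt_of_le_of_ne (hi0 _) ?_
    intro h2
    exact (Fin.succAbove_ne i0 j) (hk h2).symm
  set w : ℕ := (x0 + k i0).toNat with hw
  set d : Fin a → ℕ := fun i => ((en i : ℤ) - x0).toNat with hd
  set e : Fin b → ℕ := fun j => (k (i0.succAbove j) - k i0).toNat with he
  have hwc : ((w : ℕ) : ℤ) = x0 + k i0 := by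
    obtain ⟨m, _, hm⟩ := h i0 x0 hx0X
    rw [hw, Int.toNat_of_nonneg]
    rw [← hm]; positivity
  have hdc : ∀ i, ((d i : ℕ) : ℤ) = (en i : ℤ) - x0 := by
    intro i
    rw [hd]; simp only
    rw [Int.toNat_of_nonneg]
    linarith [hlt i]
  have hec : ∀ j, ((e j : ℕ) : ℤ) = k (i0.succAbove j) - k i0 := by
    intro j
    rw [he]; simp only
    rw [Int.toNat_of_nonneg]
    linarith [hkt j]
  refine hA w d e ?_ ?_ ?_ ?_ ?_
  · intro i
    have := hdc i
    have := hlt i
    omega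
  · intro j
    have := hec j
    have := hkt j
    omega
  · intro i i' hii
    have h1 := hdc i
    have h2 := hdc i'
    rw [hii] at h1
    have h3 : (en i : ℤ) = en i' := by linarith
    exact en.injective (Subtype.ext h3)
  · intro j j' hjj
    have h1 := hec j
    have h2 := hec j'
    rw [hjj] at h1
    have h3 : k (i0.succAbove j) = k (i0.succAbove j') := by linarith
    exact Fin.succAbove_right_injective (hk h3)
  · intro i j
    -- the point is `x + k`
    have hx : ∃ x ∈ X, ((Fin.cons 0 d : Fin (a + 1) → ℕ) i : ℤ) = x - x0 := by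
      refine Fin.cases ?_ (fun i => ?_) i
      · exact ⟨x0, hx0X, by simp⟩
      · refine ⟨en i, ?_, ?_⟩
        · have h1 := (en i).2
          rw [Finset.mem_erase] at h1
          exact h1.2
        · simp only [Fin.cons_succ]
          exact hdc i
    have hkk : ∃ l, ((Fin.cons 0 e : Fin (b + 1) → ℕ) j : ℤ) = k l - k i0 := by
      refine Fin.cases ?_ (fun j => ?_) j
      · exact ⟨i0, by simp⟩
      · refine ⟨i0.succAbove j, ?_⟩
        simp only [Fin.cons_succ]
        exact hec j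
    obtain ⟨x, hxX, hx⟩ := hx
    obtain ⟨l, hl⟩ := hkk
    obtain ⟨m, hm, hm2⟩ := h l x hxX
    have : pt w d e i j = m := by
      unfold pt
      have : ((w + (Fin.cons 0 d : Fin (a + 1) → ℕ) i + (Fin.cons 0 e : Fin (b + 1) → ℕ) j : ℕ) : ℤ)
          = m := by
        push_cast
        rw [hwc, hx, hl]
        simp only at hm2
        rw [hm2]
        ring
      exact_mod_cast this
    rw [this]
    exact hm

/-- The counting bound. -/
lemma count_bound {a b : ℕ} (ha : 1 ≤ a) (hb : 1 ≤ b) (K : ℕ) (A : Set ℕ)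
    (hlarge : ∀ J ≥ K, 5 * J + uu a b J ≤ J ^ 2)
    (hpos : ∀ m ∈ A, 1 ≤ m)
    (hcount : ∀ J ≥ K, ∃ F : Finset ℕ, (∀ m ∈ F, m ∈ A ∧ m < 5 * 2 ^ (J ^ 2)) ∧
      2 ^ (vv a b J) ≤ 2 * F.card) (ε : ℝ) (hε : 0 < ε) :
    ∀ᶠ n : ℕ in atTop, (n : ℝ) ^ ((1 - beta a b) - ε) ≤
      ((((fun n : ℕ => (n : ℤ)) '' A) ∩ Set.Icc (1 : ℤ) (n : ℤ)).ncard : ℝ) := by
  have h0 := beta_pos ha hb
  have h1 := beta_lt_one ha hb
  set α := 1 - beta a b with hα
  set ε' := min ε α with hε'
  have hε'0 : 0 < ε' := lt_min hε (by linarith)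
  have hε'1 : ε' ≤ ε := min_le_left _ _
  have hε'2 : ε' ≤ α := min_le_right _ _
  obtain ⟨J₁, hJ₁⟩ := exists_nat_gt (22 / ε')
  set J₀ := max K (J₁ + 1) with hJ₀
  filter_upwards [eventually_ge_atTop (5 * 2 ^ (J₀ ^ 2))] with n hn
  -- the block
  have hex : ∃ J, n < 5 * 2 ^ ((J + 1) ^ 2) := by
    refine ⟨n, ?_⟩
    have : n < 2 ^ n := Nat.lt_two_pow_self
    have h2 : 2 ^ n ≤ 2 ^ ((n + 1) ^ 2) := Nat.pow_le_pow_right (by norm_num) (by nlinarith)
    omega
  classical
  set J := Nat.find hex with hJ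
  have hJ1 : n < 5 * 2 ^ ((J + 1) ^ 2) := Nat.find_spec hex
  have hJ0 : J₀ ≤ J := by
    by_contra hlt
    push Not at hlt
    have : 5 * 2 ^ ((J + 1) ^ 2) ≤ 5 * 2 ^ (J₀ ^ 2) := by
      apply Nat.mul_le_mul_left
      apply Nat.pow_le_pow_right (by norm_num)
      apply Nat.pow_le_pow_left
      omega
    omega
  have hJn : 5 * 2 ^ (J ^ 2) ≤ n := by
    rcases Nat.eq_zero_or_pos J with h | h
    · rw [h] at hJ0 ⊢
      have : J₀ = 0 := by omega
      rw [this] at hn
      exact hn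
    · have := Nat.find_min hex (m := J - 1) (by omega)
      push Not at this
      have e : J - 1 + 1 = J := by omega
      rw [e] at this
      exact this
  obtain ⟨F, hF1, hF2⟩ := hcount J (by omega)
  have hsub : (F.map ⟨fun n : ℕ => (n : ℤ), Nat.cast_injective⟩ : Set ℤ) ⊆
      ((fun n : ℕ => (n : ℤ)) '' A) ∩ Set.Icc (1 : ℤ) (n : ℤ) := by
    intro z hz
    rw [Finset.mem_coe, Finset.mem_map] at hz
    obtain ⟨m, hm, rfl⟩ := hz
    have h2 := hF1 m hm
    refine ⟨⟨m, h2.1, rfl⟩, ?_⟩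
    rw [Set.mem_Icc]
    have h3 := hpos m h2.1
    simp only [Function.Embedding.coeFn_mk]
    constructor
    · exact_mod_cast h3
    · have : m ≤ n := by omega
      exact_mod_cast this
  have hcard : (F.card : ℝ) ≤
      ((((fun n : ℕ => (n : ℤ)) '' A) ∩ Set.Icc (1 : ℤ) (n : ℤ)).ncard : ℝ) := by
    have h2 := Set.ncard_le_ncard hsub ((Set.finite_Icc _ _).subset Set.inter_subset_right)
    rw [Set.ncard_coe_finset, Finset.card_map] at h2
    exact_mod_cast h2
  refine le_trans ?_ hcard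
  have hn1 : (1 : ℝ) ≤ n := by
    have : 0 < 2 ^ (J ^ 2) := by positivity
    have : 1 ≤ n := by omega
    exact_mod_cast this
  have hM : (2 : ℝ) ^ ((vv a b J : ℝ) - 1) ≤ F.card := by
    rw [Real.rpow_sub (by norm_num), Real.rpow_natCast, Real.rpow_one, div_le_iff₀ (by norm_num)]
    have : ((2 ^ vv a b J : ℕ) : ℝ) ≤ ((2 * F.card : ℕ) : ℝ) := by exact_mod_cast hF2
    push_cast at this
    linarith
  refine le_trans ?_ hM
  calc (n : ℝ) ^ (α - ε) ≤ (n : ℝ) ^ (α - ε') := by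
        apply Real.rpow_le_rpow_of_exponent_le hn1; linarith
    _ ≤ ((2 : ℝ) ^ ((((J + 1 : ℕ) : ℝ)) ^ 2 + 3)) ^ (α - ε') := by
        apply Real.rpow_le_rpow (by positivity) _ (by linarith)
        refine le_trans ?_ (five_le (J + 1))
        exact_mod_cast hJ1.le
    _ = (2 : ℝ) ^ (((((J + 1 : ℕ) : ℝ)) ^ 2 + 3) * (α - ε')) := by
        rw [← Real.rpow_mul (by norm_num)]
    _ ≤ _ := by
        apply Real.rpow_le_rpow_of_exponent_le (by norm_num)
        have h2 := vv_lower ha hb (hlarge J (by omega))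
        have hJr : 22 / ε' < J := by
          have : J₁ ≤ J := by omega
          have : (J₁ : ℝ) ≤ J := by exact_mod_cast this
          linarith
        rw [div_lt_iff₀ hε'0] at hJr
        have hJ1' : (1 : ℝ) ≤ J := by
          have : 1 ≤ J := by omega
          exact_mod_cast this
        push_cast
        have h5 : (((J : ℝ) + 1) ^ 2 + 3) * (α - ε') ≤
            (J : ℝ) ^ 2 * (α - ε') + (2 * J + 4) := by
          have : α - ε' ≤ 1 := by linarith
          nlinarith
        have h6 : 22 * (J : ℝ) ≤ J * ε' * J := by nlinarith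
        nlinarith

theorem main (a b : ℕ) (ha : 1 ≤ a) (hb : 1 ≤ b) :
    ∃ A : Set ℤ, A ⊆ {n : ℤ | 1 ≤ n} ∧ A.Infinite ∧
      (∀ X : Finset ℤ, X.card = a + 1 → ∀ k : Fin (b + 1) → ℤ, Function.Injective k →
        ¬ (∀ i : Fin (b + 1), ∀ x ∈ X, x + k i ∈ A)) ∧
      ∀ ε : ℝ, 0 < ε → ∀ᶠ n : ℕ in atTop,
        (n : ℝ) ^ ((1 - beta a b) - ε) ≤ ((A ∩ Set.Icc (1 : ℤ) (n : ℤ)).ncard : ℝ) := by
  obtain ⟨K, A, hK, hlarge, hpos, hgrid, hcount⟩ := exists_set ha hb
  have hc := count_bound ha hb K A hlarge hpos hcount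
  refine ⟨(fun n : ℕ => (n : ℤ)) '' A, ?_, ?_, ?_, hc⟩
  · rintro _ ⟨m, hm, rfl⟩
    have := hpos m hm
    simp only [Set.mem_setOf_eq]
    exact_mod_cast this
  · -- infinite
    intro hfin
    have h0 := beta_pos ha hb
    have h1 := beta_lt_one ha hb
    have h2 := hc ((1 - beta a b) / 2) (by linarith)
    have e : (1 - beta a b) - (1 - beta a b) / 2 = (1 - beta a b) / 2 := by ring
    rw [e] at h2
    have h3 : Tendsto (fun n : ℕ => (n : ℝ) ^ ((1 - beta a b) / 2)) atTop atTop :=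
      (tendsto_rpow_atTop (by linarith)).comp tendsto_natCast_atTop_atTop
    have h4 := h3.eventually_gt_atTop ((((fun n : ℕ => (n : ℤ)) '' A).ncard : ℝ))
    obtain ⟨n, hn1, hn2⟩ := (h2.and h4).exists
    have h5 : ((((fun n : ℕ => (n : ℤ)) '' A) ∩ Set.Icc (1 : ℤ) (n : ℤ)).ncard : ℝ) ≤
        (((fun n : ℕ => (n : ℤ)) '' A).ncard : ℝ) := by
      exact_mod_cast Set.ncard_le_ncard Set.inter_subset_left hfin
    linarith
  · intro X hX k hk
    exact no_translates A hgrid X hX k hk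

end Pool.Agent.T2h50.CHG
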