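import Pool.Agent.T2h50.CHG.Select

set_option autoImplicit false

/-!
# The concrete blocks (Behrend sets) and the limit
-/

namespace Pool.Agent.T2h50.CHG

open Finset Filter

/-- Behrend's theorem along `2 ^ (J ^ 2)`. -/
lemma roth_pow (J : ℕ) : (2 : ℝ) ^ (((J : ℝ)) ^ 2 - 5 * J) ≤ (rothNumberNat (2 ^ (J ^ 2)) : ℝ) := by
  have h := Behrend.roth_lower_bound (N := 2 ^ (J ^ 2))
  refine le_trans ?_ h
  have hlog : Real.log (((2 ^ (J ^ 2) : ℕ) : ℝ)) = (J : ℝ) ^ 2 * Real.log 2 := by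
    push_cast
    rw [Real.log_pow]
    push_cast
    ring
  have h2 : (0.6931471803 : ℝ) < Real.log 2 := Real.log_two_gt_d9
  have hsq : Real.sqrt (Real.log (((2 ^ (J ^ 2) : ℕ) : ℝ))) = J * Real.sqrt (Real.log 2) := by
    rw [hlog, Real.sqrt_mul (by positivity), Real.sqrt_sq (by positivity)]
  rw [hsq]
  have hs : 4 * Real.sqrt (Real.log 2) ≤ 5 * Real.log 2 := by
    have h3 : 0 ≤ Real.log 2 := by linarith
    have h4 := Real.sq_sqrt h3
    have h5 := Real.sqrt_nonneg (Real.log 2)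
    -- 4 ≤ 5 sqrt (log 2)
    have h6 : 4 / 5 ≤ Real.sqrt (Real.log 2) := by
      rw [show (4 / 5 : ℝ) = Real.sqrt ((4 / 5) ^ 2) by rw [Real.sqrt_sq (by norm_num)]]
      apply Real.sqrt_le_sqrt
      norm_num
      linarith
    nlinarith
  have e1 : (2 : ℝ) ^ (((J : ℝ)) ^ 2 - 5 * J) =
      (((2 ^ (J ^ 2) : ℕ) : ℝ)) * Real.exp (-(5 * J) * Real.log 2) := by
    rw [Real.rpow_def_of_pos (by norm_num)]
    push_cast
    have : (2 : ℝ) ^ (J ^ 2) = Real.exp (Real.log 2 * (J : ℝ) ^ 2) := by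
      rw [mul_comm, ← Real.rpow_natCast, Real.rpow_def_of_pos (by norm_num)]
      push_cast
      ring_nf
    rw [this, ← Real.exp_add]
    congr 1
    ring
  rw [e1]
  apply mul_le_mul_of_nonneg_left _ (by positivity)
  apply Real.exp_le_exp.2
  have hJ : (0 : ℝ) ≤ J := Nat.cast_nonneg J
  nlinarith

/-- a 3AP-free set with `M q ≤ 2 ^ (J ^ 2 - 5 J)` elements, labelled by `Fin M × Fin q` -/
lemma exists_block (J M q : ℕ) (h : ((M * q : ℕ) : ℝ) ≤ (2 : ℝ) ^ (((J : ℝ)) ^ 2 - 5 * J)) :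
    ∃ f : Fin M → Fin q → ℕ, (∀ r t, 4 * 2 ^ (J ^ 2) ≤ f r t) ∧ (∀ r t, f r t < 5 * 2 ^ (J ^ 2)) ∧
      (∀ r t r' t', f r t = f r' t' → r = r' ∧ t = t') ∧
      (∀ r t r' t' r'' t'', f r t + f r'' t'' = f r' t' + f r' t' → f r t = f r' t') := by
  obtain ⟨s, hs1, hs2, hs3⟩ := rothNumberNat_spec (2 ^ (J ^ 2))
  have hcard : M * q ≤ s.card := by
    have := h.trans (roth_pow J)
    rw [← hs2] at this
    exact_mod_cast this
  have hc : Fintype.card (Fin M × Fin q) ≤ Fintype.card s := by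
    simpa using hcard
  obtain ⟨emb⟩ := Function.Embedding.nonempty_of_card_le hc
  refine ⟨fun r t => 4 * 2 ^ (J ^ 2) + (emb (r, t) : ℕ), ?_, ?_, ?_, ?_⟩
  · intro r t; simp
  · intro r t
    have := hs1 (emb (r, t)).2
    rw [Finset.mem_range] at this
    simp only
    omega
  · intro r t r' t' heq
    have h1 : (emb (r, t) : ℕ) = emb (r', t') := by
      simp only at heq; omega
    have h2 := emb.injective (Subtype.ext h1)
    simpa using h2
  · intro r t r' t' r'' t'' heq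
    simp only at heq ⊢
    have h1 : (emb (r, t) : ℕ) + (emb (r'', t'') : ℕ) = (emb (r', t') : ℕ) + emb (r', t') := by
      omega
    have := hs3 (Finset.mem_coe.2 (emb (r, t)).2) (Finset.mem_coe.2 (emb (r', t')).2)
      (Finset.mem_coe.2 (emb (r'', t'')).2) h1
    rw [this]

lemma five_le (J : ℕ) : (((5 * 2 ^ (J ^ 2) : ℕ) : ℝ)) ≤ (2 : ℝ) ^ ((J : ℝ) ^ 2 + 3) := by
  rw [Real.rpow_add (by norm_num)]
  have e : ((J : ℝ) ^ 2) = ((J ^ 2 : ℕ) : ℝ) := by push_cast; rfl
  rw [e, Real.rpow_natCast]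
  push_cast
  have : (2 : ℝ) ^ (3 : ℝ) = 8 := by norm_num
  rw [this]
  have : (0 : ℝ) < 2 ^ (J ^ 2) := by positivity
  linarith

/-- exponent of the group size -/
noncomputable def uu (a b J : ℕ) : ℕ := ⌈beta a b * (J : ℝ) ^ 2⌉₊ + 3 + 6 * J

/-- exponent of the number of groups -/
noncomputable def vv (a b J : ℕ) : ℕ := J ^ 2 - (5 * J + uu a b J)

section
variable {a b : ℕ} (ha : 1 ≤ a) (hb : 1 ≤ b)
include ha hb

lemma exists_K1 : ∃ K : ℕ, 1 ≤ K ∧ ∀ J ≥ K, 5 * J + uu a b J ≤ J ^ 2 := by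
  have h0 := beta_pos ha hb
  have h1 := beta_lt_one ha hb
  obtain ⟨K, hK⟩ := exists_nat_gt (15 / (1 - beta a b))
  refine ⟨K + 1, by omega, fun J hJ => ?_⟩
  have hJ1 : (1 : ℝ) ≤ J := by
    have : 1 ≤ J := by omega
    exact_mod_cast this
  have hJK : (K : ℝ) ≤ J := by
    have : K ≤ J := by omega
    exact_mod_cast this
  have h2 : 15 < (1 - beta a b) * J := by
    rw [div_lt_iff₀ (by linarith)] at hK
    nlinarith
  have h3 : (⌈beta a b * (J : ℝ) ^ 2⌉₊ : ℝ) < beta a b * (J : ℝ) ^ 2 + 1 :=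
    Nat.ceil_lt_add_one (by positivity)
  have : ((5 * J + uu a b J : ℕ) : ℝ) ≤ ((J ^ 2 : ℕ) : ℝ) := by
    unfold uu
    push_cast
    nlinarith
  exact_mod_cast this

lemma vv_lower {J : ℕ} (h : 5 * J + uu a b J ≤ J ^ 2) :
    (1 - beta a b) * (J : ℝ) ^ 2 - 11 * J - 4 ≤ (vv a b J : ℝ) := by
  have h0 := beta_pos ha hb
  have h3 : (⌈beta a b * (J : ℝ) ^ 2⌉₊ : ℝ) < beta a b * (J : ℝ) ^ 2 + 1 :=
    Nat.ceil_lt_add_one (by positivity)
  unfold vv
  rw [Nat.cast_sub h]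
  unfold uu
  push_cast
  nlinarith

/-- The blocks. -/
theorem exists_blocks (C : ℝ) (hC : 0 < C) : ∃ (K : ℕ) (B : Blocks a b), 1 ≤ K ∧
    (∀ J ≥ K, 5 * J + uu a b J ≤ J ^ 2) ∧
    (∀ j, B.N j = 2 ^ ((j + K) ^ 2)) ∧ (∀ j, B.M j = 2 ^ (vv a b (j + K))) ∧
    ∀ T, ∑ j ∈ range T, 2 / (B.M j : ℝ) *
      (B.η j ^ 2 * (C * ((5 * B.N j : ℕ) : ℝ) ^ (1 - beta a b))) < 1 := by
  have h0 := beta_pos ha hb
  have h1 := beta_lt_one ha hb
  obtain ⟨K₁, hK1, hK2⟩ := exists_K1 ha hb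
  obtain ⟨K₂, hK3⟩ := pow_unbounded_of_one_lt (C * 2 ^ 9) (by norm_num : (1 : ℝ) < 2)
  set K := K₁ + K₂ with hK
  have hKpos : 1 ≤ K := by omega
  have hlarge : ∀ J ≥ K, 5 * J + uu a b J ≤ J ^ 2 := fun J hJ => hK2 J (by omega)
  have hMq : ∀ j : ℕ, ((2 ^ (vv a b (j + K)) * 2 ^ (uu a b (j + K)) : ℕ) : ℝ) ≤
      (2 : ℝ) ^ ((((j + K : ℕ) : ℝ)) ^ 2 - 5 * ((j + K : ℕ) : ℝ)) := by
    intro j
    have h2 := hlarge (j + K) (by omega)
    rw [← pow_add]
    have e : vv a b (j + K) + uu a b (j + K) = (j + K) ^ 2 - 5 * (j + K) := by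
      unfold vv; omega
    rw [e]
    push_cast
    rw [← Real.rpow_natCast, Nat.cast_sub (by omega)]
    push_cast
    exact le_refl _
  choose f hf1 hf2 hf3 hf4 using fun j => exists_block (j + K) _ _ (hMq j)
  refine ⟨K, { N := fun j => 2 ^ ((j + K) ^ 2)
               M := fun j => 2 ^ (vv a b (j + K))
               q := fun j => 2 ^ (uu a b (j + K))
               η := fun j => (2 : ℝ) ^ (-(6 * ((j + K : ℕ) : ℝ)))
               e := f
               hN1 := fun j => Nat.one_le_two_pow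
               hN := ?_
               hq := fun j => Nat.one_le_two_pow
               he1 := hf1
               he2 := hf2
               hinj := hf3
               hap := hf4
               hη0 := fun j => by positivity
               hη1 := ?_
               hqη := ?_ }, hKpos, hlarge, fun j => rfl, fun j => rfl, ?_⟩
  · intro j
    have : (j + 1 + K) ^ 2 = (j + K) ^ 2 + (2 * (j + K) + 1) := by ring
    rw [this, pow_add, mul_comm]
    apply Nat.mul_le_mul_left
    calc 8 = 2 ^ 3 := by norm_num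
      _ ≤ 2 ^ (2 * (j + K) + 1) := Nat.pow_le_pow_right (by norm_num) (by omega)
  · intro j
    apply Real.rpow_le_one_of_one_le_of_nonpos (by norm_num)
    have : (0 : ℝ) ≤ ((j + K : ℕ) : ℝ) := Nat.cast_nonneg _
    linarith
  · intro j
    set J := j + K with hJ
    have h5 := five_le J
    have h6 : ((2 : ℝ) ^ ((J : ℝ) ^ 2 + 3)) ^ (-beta a b) ≤
        (((5 * 2 ^ (J ^ 2) : ℕ) : ℝ)) ^ (-beta a b) := by
      apply Real.rpow_le_rpow_of_nonpos (by positivity) h5 (by linarith)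
    have h7 : (1 : ℝ) / ((2 ^ uu a b J : ℕ) : ℝ) = (2 : ℝ) ^ (-(uu a b J : ℝ)) := by
      rw [Real.rpow_neg (by norm_num), Real.rpow_natCast]
      push_cast
      rw [one_div]
    rw [h7]
    refine le_trans ?_ (mul_le_mul_of_nonneg_left h6 (by positivity))
    rw [← Real.rpow_mul (by norm_num), ← Real.rpow_add (by norm_num)]
    apply Real.rpow_le_rpow_of_exponent_le (by norm_num)
    have h8 := Nat.le_ceil (beta a b * (J : ℝ) ^ 2)
    unfold uu
    push_cast
    nlinarith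
  · intro T
    simp only
    have hterm : ∀ j ∈ range T, 2 / (((2 ^ vv a b (j + K) : ℕ) : ℝ)) *
        (((2 : ℝ) ^ (-(6 * ((j + K : ℕ) : ℝ)))) ^ 2 *
          (C * (((5 * 2 ^ ((j + K) ^ 2) : ℕ) : ℝ)) ^ (1 - beta a b))) ≤
        C * 2 ^ 8 / 2 ^ K * (1 / 2) ^ j := by
      intro j _
      set J := j + K with hJ
      have hJ2 := hlarge J (by omega)
      have h5 := five_le J
      have h6 : (((5 * 2 ^ (J ^ 2) : ℕ) : ℝ)) ^ (1 - beta a b) ≤
          (2 : ℝ) ^ (((J : ℝ) ^ 2 + 3) * (1 - beta a b)) := by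
        rw [Real.rpow_mul (by norm_num)]
        exact Real.rpow_le_rpow (by positivity) h5 (by linarith)
      have h7 : 2 / (((2 ^ vv a b J : ℕ) : ℝ)) = (2 : ℝ) ^ (1 - (vv a b J : ℝ)) := by
        rw [Real.rpow_sub (by norm_num), Real.rpow_one, Real.rpow_natCast]
        push_cast
        rfl
      have h8 : ((2 : ℝ) ^ (-(6 * ((J : ℕ) : ℝ)))) ^ 2 = (2 : ℝ) ^ (-(12 * (J : ℝ))) := by
        rw [← Real.rpow_natCast, ← Real.rpow_mul (by norm_num)]
        congr 1
        push_cast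
        ring
      have h9 : C * 2 ^ 8 / 2 ^ K * (1 / 2) ^ j = C * (2 : ℝ) ^ (8 - (J : ℝ)) := by
        rw [Real.rpow_sub (by norm_num), Real.rpow_natCast, hJ, pow_add 2 j K, one_div, inv_pow]
        have : (2 : ℝ) ^ (8 : ℝ) = 2 ^ 8 := by
          rw [← Real.rpow_natCast]; norm_num
        rw [this]
        generalize (2 : ℝ) ^ j = x
        generalize (2 : ℝ) ^ K = y
        rw [div_eq_mul_inv, div_eq_mul_inv, mul_inv]
        ring
      rw [h7, h8, h9]
      calc _ ≤ (2 : ℝ) ^ (1 - (vv a b J : ℝ)) * ((2 : ℝ) ^ (-(12 * (J : ℝ))) *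
            (C * (2 : ℝ) ^ (((J : ℝ) ^ 2 + 3) * (1 - beta a b)))) := by
            apply mul_le_mul_of_nonneg_left _ (by positivity)
            apply mul_le_mul_of_nonneg_left _ (by positivity)
            exact mul_le_mul_of_nonneg_left h6 hC.le
        _ = C * (2 : ℝ) ^ (1 - (vv a b J : ℝ) + -(12 * (J : ℝ)) +
            ((J : ℝ) ^ 2 + 3) * (1 - beta a b)) := by
            rw [Real.rpow_add (by norm_num), Real.rpow_add (by norm_num)]
            ring
        _ ≤ _ := by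
            apply mul_le_mul_of_nonneg_left _ hC.le
            apply Real.rpow_le_rpow_of_exponent_le (by norm_num)
            have := vv_lower ha hb hJ2
            nlinarith
    refine lt_of_le_of_lt (Finset.sum_le_sum hterm) ?_
    rw [← Finset.mul_sum]
    have hgeo : ∑ j ∈ range T, (1 / 2 : ℝ) ^ j ≤ 2 := by
      have := (summable_geometric_two).sum_le_tsum (range T) (fun i _ => by positivity)
      rw [tsum_geometric_two] at this
      exact this
    have hpos : 0 < C * 2 ^ 8 / 2 ^ K := by positivity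
    refine lt_of_le_of_lt (mul_le_mul_of_nonneg_left hgeo hpos.le) ?_
    rw [div_mul_eq_mul_div, div_lt_one (by positivity)]
    calc C * 2 ^ 8 * 2 = C * 2 ^ 9 := by ring
      _ < 2 ^ K₂ := hK3
      _ ≤ 2 ^ K := pow_le_pow_right₀ (by norm_num) (by omega)

/-- The infinite set in `ℕ`. -/
theorem exists_set : ∃ (K : ℕ) (A : Set ℕ), 1 ≤ K ∧ (∀ J ≥ K, 5 * J + uu a b J ≤ J ^ 2) ∧
    (∀ m ∈ A, 1 ≤ m) ∧
    (∀ (w : ℕ) (d : Fin a → ℕ) (e : Fin b → ℕ), (∀ i, 0 < d i) → (∀ j, 0 < e j) →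
        Function.Injective d → Function.Injective e → ¬ ∀ i j, pt w d e i j ∈ A) ∧
    ∀ J ≥ K, ∃ F : Finset ℕ, (∀ m ∈ F, m ∈ A ∧ m < 5 * 2 ^ (J ^ 2)) ∧
      2 ^ (vv a b J) ≤ 2 * F.card := by
  classical
  obtain ⟨C, hC, hsum⟩ := grid_sum ha hb
  obtain ⟨K, B, hK, hlarge, hBN, hBM, hT⟩ := exists_blocks ha hb C hC
  choose A hA1 hA2 hA3 using fun T => B.select ha hb hsum T (hT T)
  set U : Ultrafilter ℕ := hyperfilter ℕ with hU
  refine ⟨K, {m | ∀ᶠ T in (U : Filter ℕ), m ∈ A T}, hK, hlarge, ?_, ?_, ?_⟩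
  · intro m hm
    obtain ⟨T, hT⟩ := (Filter.Eventually.exists hm)
    exact (B.S_lt (hA1 T m hT)).1
  · intro w d e hd0 he0 hd he hall
    have h1 : ∀ᶠ T in (U : Filter ℕ), ∀ i j, pt w d e i j ∈ A T := by
      rw [Filter.eventually_all]
      intro i
      rw [Filter.eventually_all]
      intro j
      exact hall i j
    obtain ⟨T, hT⟩ := h1.exists
    exact hA2 T w d e hd0 he0 hd he hT
  · intro J hJ
    set j := J - K with hj
    have hjJ : j + K = J := by omega
    set blk := Finset.Ico (4 * B.N j) (5 * B.N j) with hblk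
    refine ⟨blk.filter (fun m => ∀ᶠ T in (U : Filter ℕ), m ∈ A T), ?_, ?_⟩
    · intro m hm
      rw [Finset.mem_filter, hblk, Finset.mem_Ico, hBN, hjJ] at hm
      exact ⟨hm.2, hm.1.2⟩
    · have h1 : ∀ᶠ T in (U : Filter ℕ), ∀ m ∈ blk,
          ((∀ᶠ T' in (U : Filter ℕ), m ∈ A T') ↔ m ∈ A T) := by
        rw [Filter.eventually_all_finset]
        intro m _
        by_cases h : ∀ᶠ T' in (U : Filter ℕ), m ∈ A T'
        · filter_upwards [h] with T hT
          simp [h, hT]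
        · have h' := h
          rw [← Ultrafilter.eventually_not] at h'
          filter_upwards [h'] with T hT
          simp [h, hT]
      have h2 : ∀ᶠ T in (U : Filter ℕ), j < T := by
        have : ∀ᶠ T in (Filter.cofinite : Filter ℕ), j < T := by
          rw [Nat.cofinite_eq_atTop]
          exact eventually_gt_atTop j
        exact Filter.hyperfilter_le_cofinite this
      obtain ⟨T, hT1, hT2⟩ := (h1.and h2).exists
      have h3 := hA3 T j hT2
      rw [hBM, hjJ] at h3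
      refine h3.trans ?_
      apply Nat.mul_le_mul_left
      apply Finset.card_le_card
      intro m hm
      rw [Finset.mem_filter] at hm
      rw [Finset.mem_filter, hblk, Finset.mem_Ico]
      refine ⟨hm.2, ?_⟩
      rw [hT1 m (by rw [hblk, Finset.mem_Ico]; exact hm.2)]
      exact hm.1

end

end Pool.Agent.T2h50.CHG
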