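import Mathlib

set_option autoImplicit false

/-!
# One random element in each group

`pos ⟨γ, t⟩` is the position of the element number `t` of the group `γ`, which has `q γ` elements.
A choice `ω` takes one element in each group. The number of choices that contain given distinct
points is at most the number of all choices times the product of the weights `1 / q` of the points.
-/

namespace Pool.Agent.T2h50.CHG

open Finset

section
variable {Γ : Type} [Fintype Γ] [DecidableEq Γ] (q : Γ → ℕ)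
  (pos : (Σ γ : Γ, Fin (q γ)) → ℕ)

/-- the chosen set -/
def chosen (ω : (γ : Γ) → Fin (q γ)) : Finset ℕ :=
  Finset.univ.image fun γ => pos ⟨γ, ω γ⟩

open Classical in
/-- the weight of a point -/
noncomputable def wt (m : ℕ) : ℝ :=
  if h : ∃ c : (Σ γ : Γ, Fin (q γ)), pos c = m then 1 / (q (Classical.choose h).1 : ℝ) else 0

lemma wt_nonneg (m : ℕ) : 0 ≤ wt q pos m := by
  unfold wt; split_ifs <;> positivity

lemma wt_pos_eq (hpos : Function.Injective pos) (c : Σ γ : Γ, Fin (q γ)) :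
    wt q pos (pos c) = 1 / (q c.1 : ℝ) := by
  have h : ∃ c' : (Σ γ : Γ, Fin (q γ)), pos c' = pos c := ⟨c, rfl⟩
  unfold wt
  rw [dif_pos h]
  have := hpos (Classical.choose_spec h)
  rw [this]

lemma wt_eq_zero {m : ℕ} (h : ¬ ∃ c : (Σ γ : Γ, Fin (q γ)), pos c = m) : wt q pos m = 0 := by
  unfold wt; rw [dif_neg h]

lemma count_le (hq : ∀ γ, 1 ≤ q γ) (hpos : Function.Injective pos) {ι : Type} [Fintype ι]
    (p : ι → ℕ) (hp : Function.Injective p) :
    ((Finset.univ.filter fun ω : (γ : Γ) → Fin (q γ) => ∀ i, p i ∈ chosen q pos ω).card : ℝ) ≤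
      (Fintype.card ((γ : Γ) → Fin (q γ)) : ℝ) * ∏ i, wt q pos (p i) := by
  classical
  have hRHS : 0 ≤ (Fintype.card ((γ : Γ) → Fin (q γ)) : ℝ) * ∏ i, wt q pos (p i) :=
    mul_nonneg (Nat.cast_nonneg _) (Finset.prod_nonneg fun i _ => wt_nonneg q pos _)
  by_cases hr : ∀ i, ∃ c : (Σ γ : Γ, Fin (q γ)), pos c = p i
  swap
  · push Not at hr
    obtain ⟨i, hi⟩ := hr
    have : (Finset.univ.filter fun ω : (γ : Γ) → Fin (q γ) => ∀ i, p i ∈ chosen q pos ω) = ∅ := by
      rw [Finset.filter_eq_empty_iff]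
      intro ω _ hω
      have := hω i
      unfold chosen at this
      rw [Finset.mem_image] at this
      obtain ⟨γ, _, hγ⟩ := this
      exact hi _ hγ
    rw [this]; simpa using hRHS
  choose c hc using hr
  have hmem : ∀ (ω : (γ : Γ) → Fin (q γ)) (i : ι), p i ∈ chosen q pos ω →
      (⟨(c i).1, ω (c i).1⟩ : Σ γ : Γ, Fin (q γ)) = c i := by
    intro ω i h
    unfold chosen at h
    rw [Finset.mem_image] at h
    obtain ⟨γ, _, hγ⟩ := h
    have h2 := hpos (hγ.trans (hc i).symm)
    have h3 : γ = (c i).1 := by rw [← h2]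
    subst h3
    exact h2
  by_cases hinj : Function.Injective fun i => (c i).1
  swap
  · have hinj' : ∃ i j, (c i).1 = (c j).1 ∧ i ≠ j := by
      unfold Function.Injective at hinj
      push Not at hinj
      exact hinj
    obtain ⟨i, j, hij, hne⟩ := hinj'
    have : (Finset.univ.filter fun ω : (γ : Γ) → Fin (q γ) => ∀ i, p i ∈ chosen q pos ω) = ∅ := by
      rw [Finset.filter_eq_empty_iff]
      intro ω _ hω
      have h1 := hmem ω i (hω i)
      have h2 := hmem ω j (hω j)
      have h3 : c i = c j := by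
        rw [← h1, ← h2, hij]
      apply hne
      apply hp
      rw [← hc i, ← hc j, h3]
    rw [this]; simpa using hRHS
  -- the main case
  set R : (γ : Γ) → Finset (Fin (q γ)) := fun γ =>
    Finset.univ.filter fun t => ∀ i, (c i).1 = γ → (⟨γ, t⟩ : Σ γ : Γ, Fin (q γ)) = c i with hR
  have hsub : (Finset.univ.filter fun ω : (γ : Γ) → Fin (q γ) => ∀ i, p i ∈ chosen q pos ω) ⊆
      Fintype.piFinset R := by
    intro ω hω
    rw [Finset.mem_filter] at hω
    rw [Fintype.mem_piFinset]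
    intro γ
    rw [hR]
    simp only [Finset.mem_filter, Finset.mem_univ, true_and]
    intro i hi
    subst hi
    exact hmem ω i (hω.2 i)
  have hcard : ((Finset.univ.filter fun ω : (γ : Γ) → Fin (q γ) =>
      ∀ i, p i ∈ chosen q pos ω).card : ℝ) ≤ ∏ γ, ((R γ).card : ℝ) := by
    rw [← Nat.cast_prod, ← Fintype.card_piFinset]
    exact_mod_cast Finset.card_le_card hsub
  refine hcard.trans ?_
  have hRle : ∀ γ ∈ (Finset.univ : Finset Γ), ((R γ).card : ℝ) ≤ (q γ : ℝ) *
      (if γ ∈ Finset.univ.image (fun i => (c i).1) then 1 / (q γ : ℝ) else 1) := by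
    intro γ _
    have hqpos : (0 : ℝ) < q γ := by exact_mod_cast hq γ
    split_ifs with h
    · rw [mul_one_div_cancel hqpos.ne']
      rw [Finset.mem_image] at h
      obtain ⟨i, _, hi⟩ := h
      have : (R γ).card ≤ 1 := by
        rw [Finset.card_le_one]
        intro t ht t' ht'
        rw [hR] at ht ht'
        simp only [Finset.mem_filter, Finset.mem_univ, true_and] at ht ht'
        have h1 := ht i hi
        have h2 := ht' i hi
        have h3 := h1.trans h2.symm
        simpa using h3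
      exact_mod_cast this
    · rw [mul_one]
      have : (R γ).card ≤ q γ := by
        refine (Finset.card_filter_le _ _).trans ?_
        simp
      exact_mod_cast this
  refine (Finset.prod_le_prod (fun γ _ => Nat.cast_nonneg _) hRle).trans ?_
  rw [Finset.prod_mul_distrib]
  have e1 : (Fintype.card ((γ : Γ) → Fin (q γ)) : ℝ) = ∏ γ, (q γ : ℝ) := by
    rw [Fintype.card_pi, Nat.cast_prod]
    simp
  rw [e1]
  apply mul_le_mul_of_nonneg_left _ (Finset.prod_nonneg fun γ _ => Nat.cast_nonneg _)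
  have e2 : ∏ γ, (if γ ∈ Finset.univ.image (fun i => (c i).1) then 1 / (q γ : ℝ) else 1) =
      ∏ γ ∈ Finset.univ.image (fun i => (c i).1), 1 / (q γ : ℝ) := by
    rw [Finset.prod_ite_mem, Finset.univ_inter]
  rw [e2, Finset.prod_image (fun i _ j _ h => hinj h)]
  apply le_of_eq
  refine Finset.prod_congr rfl fun i _ => ?_
  rw [← hc i, wt_pos_eq q pos hpos]

/-- averaging over all choices -/
lemma exists_choice (hq : ∀ γ, 1 ≤ q γ) (hpos : Function.Injective pos) {ι κ : Type} [Fintype ι]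
    (𝒞 : Finset κ) (p : κ → ι → ℕ) (hp : ∀ c ∈ 𝒞, Function.Injective (p c))
    (lam : κ → ℝ) (hlam : ∀ c ∈ 𝒞, 0 ≤ lam c) :
    ∃ ω : (γ : Γ) → Fin (q γ), ∑ c ∈ 𝒞.filter (fun c => ∀ i, p c i ∈ chosen q pos ω), lam c ≤
      ∑ c ∈ 𝒞, lam c * ∏ i, wt q pos (p c i) := by
  classical
  haveI : Nonempty ((γ : Γ) → Fin (q γ)) := ⟨fun γ => ⟨0, hq γ⟩⟩
  by_contra hcon
  push Not at hcon
  have h1 : ∑ ω : (γ : Γ) → Fin (q γ), ∑ c ∈ 𝒞, lam c * ∏ i, wt q pos (p c i) <
      ∑ ω : (γ : Γ) → Fin (q γ),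
        ∑ c ∈ 𝒞.filter (fun c => ∀ i, p c i ∈ chosen q pos ω), lam c :=
    Finset.sum_lt_sum_of_nonempty Finset.univ_nonempty fun ω _ => hcon ω
  have h2 : ∑ ω : (γ : Γ) → Fin (q γ),
        ∑ c ∈ 𝒞.filter (fun c => ∀ i, p c i ∈ chosen q pos ω), lam c =
      ∑ c ∈ 𝒞, lam c * ((Finset.univ.filter fun ω : (γ : Γ) → Fin (q γ) =>
        ∀ i, p c i ∈ chosen q pos ω).card : ℝ) := by
    simp_rw [Finset.sum_filter]
    rw [Finset.sum_comm]
    refine Finset.sum_congr rfl fun c _ => ?_
    rw [← Finset.sum_filter, Finset.sum_const, nsmul_eq_mul, mul_comm]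
  have h3 : ∑ c ∈ 𝒞, lam c * ((Finset.univ.filter fun ω : (γ : Γ) → Fin (q γ) =>
        ∀ i, p c i ∈ chosen q pos ω).card : ℝ) ≤
      ∑ c ∈ 𝒞, lam c * ((Fintype.card ((γ : Γ) → Fin (q γ)) : ℝ) *
        ∏ i, wt q pos (p c i)) :=
    Finset.sum_le_sum fun c hc =>
      mul_le_mul_of_nonneg_left (count_le q pos hq hpos (p c) (hp c hc)) (hlam c hc)
  rw [h2] at h1
  have h4 := h1.trans_le h3
  rw [Finset.sum_const, nsmul_eq_mul, Finset.card_univ, Finset.mul_sum] at h4
  apply lt_irrefl _ (h4.trans_le (le_of_eq _))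
  refine Finset.sum_congr rfl fun c _ => ?_
  ring

end

end Pool.Agent.T2h50.CHG
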