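import Pool.Agent.T2h50.CHG.Sum
import Pool.Agent.T2h50.CHG.Prob

set_option autoImplicit false

/-!
# Selection in finitely many blocks
-/

namespace Pool.Agent.T2h50.CHG

open Finset

/-- Block data: block `j` lies in `[4 N j, 5 N j)` and consists of `M j` groups of `q j` points. -/
structure Blocks (a b : ℕ) where
  N : ℕ → ℕ
  M : ℕ → ℕ
  q : ℕ → ℕ
  η : ℕ → ℝ
  e : (j : ℕ) → Fin (M j) → Fin (q j) → ℕ
  hN1 : ∀ j, 1 ≤ N j
  hN : ∀ j, 8 * N j ≤ N (j + 1)
  hq : ∀ j, 1 ≤ q j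
  he1 : ∀ j r t, 4 * N j ≤ e j r t
  he2 : ∀ j r t, e j r t < 5 * N j
  hinj : ∀ j r t r' t', e j r t = e j r' t' → r = r' ∧ t = t'
  hap : ∀ j r t r' t' r'' t'', e j r t + e j r'' t'' = e j r' t' + e j r' t' →
    e j r t = e j r' t'
  hη0 : ∀ j, 0 < η j
  hη1 : ∀ j, η j ≤ 1
  hqη : ∀ j, 1 / (q j : ℝ) ≤ η j * ((5 * N j : ℕ) : ℝ) ^ (-beta a b)

namespace Blocks

variable {a b : ℕ} (B : Blocks a b)

/-- the interval of block `j` -/
def inB (j m : ℕ) : Prop := 4 * B.N j ≤ m ∧ m < 5 * B.N j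

lemma N_lt {i j : ℕ} (h : i < j) : 8 * B.N i ≤ B.N j := by
  induction j with
  | zero => omega
  | succ j ih =>
    have h1 := B.hN j
    rcases Nat.lt_succ_iff_lt_or_eq.1 h with h2 | h2
    · have := ih h2; omega
    · subst h2; exact h1

lemma inB_unique {i j m : ℕ} (hi : B.inB i m) (hj : B.inB j m) : i = j := by
  unfold inB at hi hj
  rcases lt_trichotomy i j with h | h | h
  · have := B.N_lt h
    have := B.hN1 i
    omega
  · exact h
  · have := B.N_lt h
    have := B.hN1 j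
    omega

/-- the ground set, blocks below `T` -/
def S (T : ℕ) : Set ℕ := {m | ∃ j, j < T ∧ ∃ r t, B.e j r t = m}

lemma S_mono {T T' : ℕ} (h : T ≤ T') : B.S T ⊆ B.S T' := by
  rintro m ⟨j, hj, r, t, rfl⟩
  exact ⟨j, by omega, r, t, rfl⟩

/-- a point of the ground set that lies in the interval of block `j` is a point of block `j` -/
lemma mem_block {T j m : ℕ} (hm : m ∈ B.S T) (hj : B.inB j m) :
    ∃ r t, B.e j r t = m := by
  obtain ⟨i, hi, r, t, rfl⟩ := hm
  have h1 : B.inB i (B.e i r t) := ⟨B.he1 i r t, B.he2 i r t⟩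
  have := B.inB_unique h1 hj
  subst this
  exact ⟨r, t, rfl⟩

lemma exists_inB {T m : ℕ} (hm : m ∈ B.S T) : ∃ j, j < T ∧ B.inB j m := by
  obtain ⟨i, hi, r, t, rfl⟩ := hm
  exact ⟨i, hi, B.he1 i r t, B.he2 i r t⟩

/-- there is no three term progression in the ground set -/
lemma ap_free {T x y z : ℕ} (hx : x ∈ B.S T) (hy : y ∈ B.S T) (hz : z ∈ B.S T)
    (h : x + z = y + y) : x = y := by
  obtain ⟨i, hi, hix⟩ := B.exists_inB hx
  obtain ⟨j, hj, hjy⟩ := B.exists_inB hy
  obtain ⟨k, hk, hkz⟩ := B.exists_inB hz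
  have key : i = j ∧ k = j := by
    unfold inB at hix hjy hkz
    have n1 := B.hN1 i
    have n2 := B.hN1 j
    have n3 := B.hN1 k
    rcases lt_trichotomy i j with h1 | h1 | h1
    · have e1 := B.N_lt h1
      rcases lt_trichotomy k j with h2 | h2 | h2
      · have e2 := B.N_lt h2; omega
      · subst h2; omega
      · have e2 := B.N_lt h2; omega
    · subst h1
      rcases lt_trichotomy k i with h2 | h2 | h2
      · have e2 := B.N_lt h2; omega
      · exact ⟨rfl, h2⟩
      · have e2 := B.N_lt h2; omega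
    · have e1 := B.N_lt h1
      omega
  obtain ⟨h1, h2⟩ := key
  subst h1
  subst h2
  obtain ⟨r, t, hx'⟩ := B.mem_block hx hix
  obtain ⟨r', t', hy'⟩ := B.mem_block hy hjy
  obtain ⟨r'', t'', hz'⟩ := B.mem_block hz hkz
  subst hx'
  subst hy'
  subst hz'
  exact B.hap _ _ _ _ _ _ _ h

/-- all points of a grid in the ground set are different -/
lemma grid_injective {T w : ℕ} {d : Fin a → ℕ} {e : Fin b → ℕ} (hd : Function.Injective d)
    (he : Function.Injective e) (hd0 : ∀ i, 0 < d i) (he0 : ∀ j, 0 < e j)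
    (hS : ∀ i j, pt w d e i j ∈ B.S T) :
    Function.Injective fun p : Fin (a + 1) × Fin (b + 1) => pt w d e p.1 p.2 := by
  have hD : Function.Injective (Fin.cons 0 d : Fin (a + 1) → ℕ) := by
    rw [Fin.cons_injective_iff]
    refine ⟨?_, hd⟩
    rintro ⟨i, hi⟩
    have := hd0 i; omega
  have hE : Function.Injective (Fin.cons 0 e : Fin (b + 1) → ℕ) := by
    rw [Fin.cons_injective_iff]
    refine ⟨?_, he⟩
    rintro ⟨i, hi⟩
    have := he0 i; omega
  rintro ⟨i, j⟩ ⟨i', j'⟩ h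
  simp only at h
  have h1 := hS i j'
  have h2 := hS i j
  have h3 := hS i' j
  have h4 : pt w d e i j' + pt w d e i' j = pt w d e i j + pt w d e i j := by
    have : pt w d e i j' + pt w d e i' j = pt w d e i j + pt w d e i' j' := by
      unfold pt; ring
    rw [this, ← h]
  have h5 := B.ap_free h1 h2 h3 h4
  have h6 : j' = j := by
    apply hE
    unfold pt at h5
    omega
  subst h6
  have h7 : i = i' := by
    apply hD
    unfold pt at h
    omega
  subst h7
  rfl

/-- the groups in the blocks below `T` -/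
abbrev Γ (T : ℕ) : Type := Σ j : Fin T, Fin (B.M j)

/-- number of points in a group -/
def gq (T : ℕ) (γ : B.Γ T) : ℕ := B.q γ.1

/-- position -/
def gpos (T : ℕ) (c : Σ γ : B.Γ T, Fin (B.gq T γ)) : ℕ := B.e c.1.1 c.1.2 c.2

lemma gpos_injective (T : ℕ) : Function.Injective (B.gpos T) := by
  rintro ⟨⟨j, r⟩, t⟩ ⟨⟨j', r'⟩, t'⟩ h
  unfold gpos at h
  simp only at h
  have h1 : B.inB j (B.e j r t) := ⟨B.he1 _ _ _, B.he2 _ _ _⟩
  have h2 : B.inB j' (B.e j r t) := by rw [h]; exact ⟨B.he1 _ _ _, B.he2 _ _ _⟩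
  have h3 : j = j' := Fin.ext (B.inB_unique h1 h2)
  subst h3
  obtain ⟨h4, h5⟩ := B.hinj _ _ _ _ _ h
  subst h4
  subst h5
  rfl

lemma mem_S_iff {T m : ℕ} : m ∈ B.S T ↔ ∃ c, B.gpos T c = m := by
  constructor
  · rintro ⟨j, hj, r, t, rfl⟩
    exact ⟨⟨⟨⟨j, hj⟩, r⟩, t⟩, rfl⟩
  · rintro ⟨⟨⟨j, r⟩, t⟩, rfl⟩
    exact ⟨j, j.2, r, t, rfl⟩

/-- the weight of a point -/
noncomputable def φ (T m : ℕ) : ℝ := wt (B.gq T) (B.gpos T) m

lemma φ_nonneg (T m : ℕ) : 0 ≤ B.φ T m := wt_nonneg _ _ _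

lemma φ_zero {T m : ℕ} (h : m ∉ B.S T) : B.φ T m = 0 := by
  rw [mem_S_iff] at h
  exact wt_eq_zero _ _ h

lemma φ_le {T j m : ℕ} (hT : m ∈ B.S T) (hj : B.inB j m) (hβ : 0 < beta a b) :
    B.φ T m ≤ B.η j * (m : ℝ) ^ (-beta a b) := by
  obtain ⟨c, hc⟩ := B.mem_S_iff.1 hT
  have h1 : B.φ T m = 1 / (B.gq T c.1 : ℝ) := by
    unfold φ
    rw [← hc, wt_pos_eq _ _ (B.gpos_injective T)]
  have h2 : B.inB c.1.1 m := by
    rw [← hc]; exact ⟨B.he1 _ _ _, B.he2 _ _ _⟩
  have h3 : (c.1.1 : ℕ) = j := B.inB_unique h2 hj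
  rw [h1]
  unfold gq
  rw [h3]
  refine (B.hqη j).trans ?_
  apply mul_le_mul_of_nonneg_left _ (B.hη0 j).le
  have hm1 : 0 < m := by
    have := hj.1
    have := B.hN1 j
    omega
  apply Real.rpow_le_rpow_of_nonpos (by exact_mod_cast hm1)
  · exact_mod_cast hj.2.le
  · linarith

/-- the topmost point of a grid -/
def top (c : ℕ × (Fin a → ℕ) × (Fin b → ℕ)) : ℕ :=
  c.1 + Finset.univ.sup c.2.1 + Finset.univ.sup c.2.2

lemma pt_le_top (c : ℕ × (Fin a → ℕ) × (Fin b → ℕ)) (i : Fin (a + 1)) (j : Fin (b + 1)) :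
    pt c.1 c.2.1 c.2.2 i j ≤ top c := by
  unfold pt top
  have h1 : (Fin.cons 0 c.2.1 : Fin (a + 1) → ℕ) i ≤ Finset.univ.sup c.2.1 := by
    refine Fin.cases ?_ (fun i => ?_) i
    · simp
    · simp only [Fin.cons_succ]
      exact Finset.le_sup (f := c.2.1) (Finset.mem_univ i)
  have h2 : (Fin.cons 0 c.2.2 : Fin (b + 1) → ℕ) j ≤ Finset.univ.sup c.2.2 := by
    refine Fin.cases ?_ (fun i => ?_) j
    · simp
    · simp only [Fin.cons_succ]
      exact Finset.le_sup (f := c.2.2) (Finset.mem_univ i)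
  omega

lemma exists_top (ha : 1 ≤ a) (hb : 1 ≤ b) (c : ℕ × (Fin a → ℕ) × (Fin b → ℕ)) :
    ∃ (i : Fin a) (j : Fin b), top c = pt c.1 c.2.1 c.2.2 i.succ j.succ ∧
      pt c.1 c.2.1 c.2.2 i.succ 0 = c.1 + Finset.univ.sup c.2.1 ∧
      pt c.1 c.2.1 c.2.2 0 j.succ = c.1 + Finset.univ.sup c.2.2 := by
  haveI : Nonempty (Fin a) := ⟨⟨0, ha⟩⟩
  haveI : Nonempty (Fin b) := ⟨⟨0, hb⟩⟩
  obtain ⟨i, _, hi⟩ := Finset.exists_mem_eq_sup (Finset.univ : Finset (Fin a))
    Finset.univ_nonempty c.2.1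
  obtain ⟨j, _, hj⟩ := Finset.exists_mem_eq_sup (Finset.univ : Finset (Fin b))
    Finset.univ_nonempty c.2.2
  refine ⟨i, j, ?_, ?_, ?_⟩
  · unfold top pt
    simp only [Fin.cons_succ]
    rw [hi, hj]
  · unfold pt
    simp only [Fin.cons_succ, Fin.cons_zero]
    rw [hi]; rfl
  · unfold pt
    simp only [Fin.cons_succ, Fin.cons_zero]
    rw [hj]; omega

open Classical in
/-- all admissible grids in the ground set -/
noncomputable def conf (T : ℕ) : Finset (ℕ × (Fin a → ℕ) × (Fin b → ℕ)) :=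
  ((Icc 1 (5 * B.N T)) ×ˢ ((Fintype.piFinset fun _ : Fin a => Icc 1 (5 * B.N T)) ×ˢ
    (Fintype.piFinset fun _ : Fin b => Icc 1 (5 * B.N T)))).filter fun c =>
      Function.Injective c.2.1 ∧ Function.Injective c.2.2 ∧
        ∀ i j, pt c.1 c.2.1 c.2.2 i j ∈ B.S T

lemma S_lt {T m : ℕ} (h : m ∈ B.S T) : 1 ≤ m ∧ m < 5 * B.N T := by
  obtain ⟨j, hj, h1⟩ := B.exists_inB h
  have h2 := B.N_lt hj
  have h3 := B.hN1 j
  unfold inB at h1
  omega

lemma mem_conf {T : ℕ} (ha : 1 ≤ a) (hb : 1 ≤ b) {c : ℕ × (Fin a → ℕ) × (Fin b → ℕ)} :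
    c ∈ B.conf T ↔ (∀ i, 0 < c.2.1 i) ∧ (∀ j, 0 < c.2.2 j) ∧ Function.Injective c.2.1 ∧
      Function.Injective c.2.2 ∧ ∀ i j, pt c.1 c.2.1 c.2.2 i j ∈ B.S T := by
  classical
  unfold conf
  rw [Finset.mem_filter]
  simp only [Finset.mem_product, Fintype.mem_piFinset, Finset.mem_Icc]
  constructor
  · rintro ⟨⟨_, h1, h2⟩, h3⟩
    exact ⟨fun i => (h1 i).1, fun i => (h2 i).1, h3⟩
  · rintro ⟨h1, h2, h3, h4, h5⟩
    have hw : pt c.1 c.2.1 c.2.2 0 0 = c.1 := by
      unfold pt; simp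
    have hw' := B.S_lt (h5 0 0)
    rw [hw] at hw'
    refine ⟨⟨⟨by omega, by omega⟩, fun i => ?_, fun j => ?_⟩, h3, h4, h5⟩
    · have := B.S_lt (h5 i.succ 0)
      unfold pt at this
      simp only [Fin.cons_succ, Fin.cons_zero] at this
      have := h1 i
      omega
    · have := B.S_lt (h5 0 j.succ)
      unfold pt at this
      simp only [Fin.cons_succ, Fin.cons_zero] at this
      have := h2 j
      omega

/-- The total weight of the grids whose topmost point is in block `j`. -/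
lemma block_sum (ha : 1 ≤ a) (hb : 1 ≤ b) {C : ℝ}
    (hC : ∀ (n : ℕ) (φ : ℕ → ℝ), (∀ m, 0 ≤ φ m) →
      (∀ m, 1 ≤ m → φ m ≤ (m : ℝ) ^ (-beta a b)) → (∀ m, n < m → φ m = 0) →
      ∑ w ∈ Icc 1 n, ∑ d ∈ Fintype.piFinset (fun _ : Fin a => Icc 1 n),
        ∑ e ∈ Fintype.piFinset (fun _ : Fin b => Icc 1 n),
          ∏ i : Fin (a + 1), ∏ j : Fin (b + 1), φ (pt w d e i j) ≤
        C * (n : ℝ) ^ (1 - beta a b)) (T j : ℕ) [DecidablePred (B.inB j)] :
    ∑ c ∈ (B.conf T).filter (fun c => B.inB j (top c)),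
      ∏ p : Fin (a + 1) × Fin (b + 1), B.φ T (pt c.1 c.2.1 c.2.2 p.1 p.2) ≤
    B.η j ^ 2 * (C * ((5 * B.N j : ℕ) : ℝ) ^ (1 - beta a b)) := by
  classical
  have hβ := beta_pos ha hb
  set n := 5 * B.N j with hn
  set ψ : ℕ → ℝ := fun m => if 1 ≤ m ∧ m ≤ n then (m : ℝ) ^ (-beta a b) else 0 with hψ
  have hψ0 : ∀ m, 0 ≤ ψ m := by
    intro m; rw [hψ]; simp only; split_ifs <;> positivity
  have h := hC n ψ hψ0 (by
    intro m hm; rw [hψ]; simp only; split_ifs
    · exact le_refl _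
    · positivity) (by
    intro m hm; rw [hψ]; simp only; rw [if_neg (by omega)])
  have hterm : ∀ c ∈ (B.conf T).filter (fun c => B.inB j (top c)),
      ∏ p : Fin (a + 1) × Fin (b + 1), B.φ T (pt c.1 c.2.1 c.2.2 p.1 p.2) ≤
      B.η j ^ 2 * ∏ i : Fin (a + 1), ∏ k : Fin (b + 1), ψ (pt c.1 c.2.1 c.2.2 i k) := by
    intro c hc
    rw [Finset.mem_filter, B.mem_conf ha hb] at hc
    obtain ⟨⟨h1, h2, h3, h4, h5⟩, h6⟩ := hc
    -- a point above `2 N j` is in block `j`
    have hin : ∀ i k, 2 * B.N j ≤ pt c.1 c.2.1 c.2.2 i k →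
        B.inB j (pt c.1 c.2.1 c.2.2 i k) := by
      intro i k hik
      have hle := pt_le_top c i k
      obtain ⟨l, hl, hl2⟩ := B.exists_inB (h5 i k)
      have : l = j := by
        unfold inB at hl2 h6
        rcases lt_trichotomy l j with h | h | h
        · have := B.N_lt h; omega
        · exact h
        · have := B.N_lt h; omega
      rw [← this]; exact hl2
    obtain ⟨i₀, k₀, t1, t2, t3⟩ := exists_top ha hb c
    -- two points in block j
    have htwo : ∃ p p' : Fin (a + 1) × Fin (b + 1), p ≠ p' ∧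
        B.inB j (pt c.1 c.2.1 c.2.2 p.1 p.2) ∧ B.inB j (pt c.1 c.2.1 c.2.2 p'.1 p'.2) := by
      have htop : 4 * B.N j ≤ c.1 + Finset.univ.sup c.2.1 + Finset.univ.sup c.2.2 := h6.1
      by_cases hx : 2 * B.N j ≤ c.1 + Finset.univ.sup c.2.1
      · refine ⟨(i₀.succ, k₀.succ), (i₀.succ, 0), ?_, ?_, ?_⟩
        · intro h
          exact Fin.succ_ne_zero k₀ (congrArg Prod.snd h)
        · simp only; rw [← t1]; exact h6
        · simp only; apply hin; rw [t2]; exact hx
      · refine ⟨(i₀.succ, k₀.succ), (0, k₀.succ), ?_, ?_, ?_⟩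
        · intro h
          exact Fin.succ_ne_zero i₀ (congrArg Prod.fst h)
        · simp only; rw [← t1]; exact h6
        · simp only; apply hin; rw [t3]; omega
    obtain ⟨p, p', hpp, hp, hp'⟩ := htwo
    -- the factor of each point
    set f : Fin (a + 1) × Fin (b + 1) → ℝ := fun x => if x = p ∨ x = p' then B.η j else 1 with hf
    have hfx : ∀ x : Fin (a + 1) × Fin (b + 1),
        B.φ T (pt c.1 c.2.1 c.2.2 x.1 x.2) ≤ f x * ψ (pt c.1 c.2.1 c.2.2 x.1 x.2) := by
      intro x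
      have hxS := h5 x.1 x.2
      obtain ⟨l, hl, hl2⟩ := B.exists_inB hxS
      have hm1 := (B.S_lt hxS).1
      have hm2 : pt c.1 c.2.1 c.2.2 x.1 x.2 ≤ n := by
        have := pt_le_top c x.1 x.2
        have := h6.2
        omega
      have hψx : ψ (pt c.1 c.2.1 c.2.2 x.1 x.2) =
          ((pt c.1 c.2.1 c.2.2 x.1 x.2 : ℕ) : ℝ) ^ (-beta a b) := by
        rw [hψ]; simp only; rw [if_pos ⟨hm1, hm2⟩]
      rw [hψx]
      by_cases hxp : x = p ∨ x = p'
      · have hlj : B.inB j (pt c.1 c.2.1 c.2.2 x.1 x.2) := by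
          rcases hxp with h | h <;> rw [h] <;> assumption
        have := B.φ_le hxS hlj hβ
        rw [hf]; simp only; rw [if_pos hxp]
        exact this
      · refine (B.φ_le hxS hl2 hβ).trans ?_
        rw [hf]; simp only; rw [if_neg hxp]
        exact mul_le_mul_of_nonneg_right (B.hη1 l) (by positivity)
    have hprod : ∏ x : Fin (a + 1) × Fin (b + 1), f x = B.η j ^ 2 := by
      have : ∏ x : Fin (a + 1) × Fin (b + 1), f x = ∏ x ∈ ({p, p'} : Finset _), B.η j := by
        rw [← Finset.prod_subset (Finset.subset_univ ({p, p'} : Finset _))]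
        · refine Finset.prod_congr rfl fun x hx => ?_
          rw [hf]; simp only
          rw [if_pos (by simpa using hx)]
        · intro x _ hx
          rw [hf]; simp only
          rw [if_neg (by simpa using hx)]
      rw [this, Finset.prod_const, Finset.card_pair hpp]
    calc ∏ x : Fin (a + 1) × Fin (b + 1), B.φ T (pt c.1 c.2.1 c.2.2 x.1 x.2)
        ≤ ∏ x : Fin (a + 1) × Fin (b + 1), f x * ψ (pt c.1 c.2.1 c.2.2 x.1 x.2) :=
          Finset.prod_le_prod (fun x _ => B.φ_nonneg _ _) fun x _ => hfx x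
      _ = B.η j ^ 2 * ∏ x : Fin (a + 1) × Fin (b + 1), ψ (pt c.1 c.2.1 c.2.2 x.1 x.2) := by
          rw [Finset.prod_mul_distrib, hprod]
      _ = _ := by
          congr 1
          rw [← Finset.univ_product_univ, Finset.prod_product]
  refine (Finset.sum_le_sum hterm).trans ?_
  rw [← Finset.mul_sum]
  apply mul_le_mul_of_nonneg_left _ (by positivity)
  refine le_trans ?_ h
  rw [← Finset.sum_product' (Icc 1 n)
    (Fintype.piFinset (fun _ : Fin a => Icc 1 n))
    (fun w d => ∑ e ∈ Fintype.piFinset (fun _ : Fin b => Icc 1 n),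
      ∏ i : Fin (a + 1), ∏ k : Fin (b + 1), ψ (pt w d e i k))]
  rw [Finset.sum_product, ]
  have e1 : ∀ w ∈ Icc 1 n, ∑ d ∈ Fintype.piFinset (fun _ : Fin a => Icc 1 n),
      ∑ e ∈ Fintype.piFinset (fun _ : Fin b => Icc 1 n),
      ∏ i : Fin (a + 1), ∏ k : Fin (b + 1), ψ (pt w d e i k) =
      ∑ y ∈ (Fintype.piFinset (fun _ : Fin a => Icc 1 n)) ×ˢ
        (Fintype.piFinset (fun _ : Fin b => Icc 1 n)),
        ∏ i : Fin (a + 1), ∏ k : Fin (b + 1), ψ (pt w y.1 y.2 i k) := by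
    intro w _
    rw [Finset.sum_product]
  rw [Finset.sum_congr rfl e1]
  rw [← Finset.sum_product' (Icc 1 n) ((Fintype.piFinset (fun _ : Fin a => Icc 1 n)) ×ˢ
        (Fintype.piFinset (fun _ : Fin b => Icc 1 n)))
    (fun w y => ∏ i : Fin (a + 1), ∏ k : Fin (b + 1), ψ (pt w y.1 y.2 i k))]
  apply Finset.sum_le_sum_of_subset_of_nonneg
  · intro c hc
    rw [Finset.mem_filter, B.mem_conf ha hb] at hc
    obtain ⟨⟨h1, h2, h3, h4, h5⟩, h6⟩ := hc
    simp only [Finset.mem_product, Fintype.mem_piFinset, Finset.mem_Icc]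
    have hw := B.S_lt (h5 0 0)
    have hw0 : pt c.1 c.2.1 c.2.2 0 0 = c.1 := by
      unfold pt; simp
    have hle := h6.2
    refine ⟨⟨by omega, ?_⟩, fun i => ⟨h1 i, ?_⟩, fun k => ⟨h2 k, ?_⟩⟩
    · have := pt_le_top c 0 0
      omega
    · have := pt_le_top c i.succ 0
      unfold pt at this
      simp only [Fin.cons_succ, Fin.cons_zero] at this
      omega
    · have := pt_le_top c 0 k.succ
      unfold pt at this
      simp only [Fin.cons_succ, Fin.cons_zero] at this
      omega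
  · intro c _ _
    exact Finset.prod_nonneg fun i _ => Finset.prod_nonneg fun k _ => hψ0 _

/-- **Finite selection.** -/
theorem select (ha : 1 ≤ a) (hb : 1 ≤ b) {C : ℝ}
    (hC : ∀ (n : ℕ) (φ : ℕ → ℝ), (∀ m, 0 ≤ φ m) →
      (∀ m, 1 ≤ m → φ m ≤ (m : ℝ) ^ (-beta a b)) → (∀ m, n < m → φ m = 0) →
      ∑ w ∈ Icc 1 n, ∑ d ∈ Fintype.piFinset (fun _ : Fin a => Icc 1 n),
        ∑ e ∈ Fintype.piFinset (fun _ : Fin b => Icc 1 n),
          ∏ i : Fin (a + 1), ∏ j : Fin (b + 1), φ (pt w d e i j) ≤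
        C * (n : ℝ) ^ (1 - beta a b)) (T : ℕ)
    (hsum : ∑ j ∈ range T, 2 / (B.M j : ℝ) *
      (B.η j ^ 2 * (C * ((5 * B.N j : ℕ) : ℝ) ^ (1 - beta a b))) < 1) :
    ∃ A : Finset ℕ, (∀ m ∈ A, m ∈ B.S T) ∧
      (∀ (w : ℕ) (d : Fin a → ℕ) (e : Fin b → ℕ), (∀ i, 0 < d i) → (∀ j, 0 < e j) →
        Function.Injective d → Function.Injective e → ¬ ∀ i j, pt w d e i j ∈ A) ∧
      ∀ j < T, B.M j ≤ 2 * (A.filter (fun m => 4 * B.N j ≤ m ∧ m < 5 * B.N j)).card := by
  classical
  set lam : ℕ × (Fin a → ℕ) × (Fin b → ℕ) → ℝ := fun c =>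
    ∑ j ∈ range T, if B.inB j (top c) then 2 / (B.M j : ℝ) else 0 with hlam
  have hlam0 : ∀ c, 0 ≤ lam c := by
    intro c; rw [hlam]
    exact Finset.sum_nonneg fun j _ => by split_ifs <;> positivity
  have hlamj : ∀ c j, j < T → B.inB j (top c) → lam c = 2 / (B.M j : ℝ) := by
    intro c j hj hjc
    rw [hlam]; simp only
    rw [Finset.sum_eq_single j]
    · rw [if_pos hjc]
    · intro i _ hij
      rw [if_neg]
      intro h
      exact hij (B.inB_unique h hjc)
    · intro h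
      exact absurd (Finset.mem_range.2 hj) h
  obtain ⟨ω, hω⟩ := exists_choice (B.gq T) (B.gpos T) (fun γ => B.hq _) (B.gpos_injective T)
    (B.conf T) (fun c (p : Fin (a + 1) × Fin (b + 1)) => pt c.1 c.2.1 c.2.2 p.1 p.2)
    (by
      intro c hc
      rw [B.mem_conf ha hb] at hc
      obtain ⟨h1, h2, h3, h4, h5⟩ := hc
      exact B.grid_injective h3 h4 h1 h2 h5)
    lam (fun c _ => hlam0 c)
  have hE : ∑ c ∈ B.conf T, lam c *
      ∏ p : Fin (a + 1) × Fin (b + 1), wt (B.gq T) (B.gpos T) (pt c.1 c.2.1 c.2.2 p.1 p.2) < 1 := by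
    refine lt_of_le_of_lt ?_ hsum
    calc _ = ∑ j ∈ range T, ∑ c ∈ B.conf T, (if B.inB j (top c) then 2 / (B.M j : ℝ) else 0) *
          ∏ p : Fin (a + 1) × Fin (b + 1), B.φ T (pt c.1 c.2.1 c.2.2 p.1 p.2) := by
          rw [Finset.sum_comm]
          refine Finset.sum_congr rfl fun c _ => ?_
          rw [hlam]; simp only
          rw [Finset.sum_mul]
          rfl
      _ ≤ _ := by
          refine Finset.sum_le_sum fun j _ => ?_
          calc _ = 2 / (B.M j : ℝ) * ∑ c ∈ (B.conf T).filter (fun c => B.inB j (top c)),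
                ∏ p : Fin (a + 1) × Fin (b + 1), B.φ T (pt c.1 c.2.1 c.2.2 p.1 p.2) := by
                rw [Finset.mul_sum, Finset.sum_filter]
                refine Finset.sum_congr rfl fun c _ => ?_
                split_ifs
                · rfl
                · rw [zero_mul]
            _ ≤ _ := mul_le_mul_of_nonneg_left (B.block_sum ha hb hC T j) (by positivity)
  have hω1 := hω.trans_lt hE
  set A₀ := chosen (B.gq T) (B.gpos T) ω with hA₀
  have hA₀S : ∀ m ∈ A₀, m ∈ B.S T := by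
    intro m hm
    rw [hA₀] at hm
    unfold chosen at hm
    rw [Finset.mem_image] at hm
    obtain ⟨γ, _, rfl⟩ := hm
    exact B.mem_S_iff.2 ⟨_, rfl⟩
  set bad := (B.conf T).filter (fun c => ∀ p : Fin (a + 1) × Fin (b + 1),
    pt c.1 c.2.1 c.2.2 p.1 p.2 ∈ A₀) with hbad
  refine ⟨A₀ \ bad.image top, ?_, ?_, ?_⟩
  · intro m hm
    exact hA₀S m (Finset.mem_sdiff.1 hm).1
  · intro w d e hd0 he0 hd he hall
    have hc : (w, d, e) ∈ bad := by
      rw [hbad, Finset.mem_filter, B.mem_conf ha hb]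
      refine ⟨⟨hd0, he0, hd, he, fun i j => ?_⟩, fun p => ?_⟩
      · exact hA₀S _ (Finset.mem_sdiff.1 (hall i j)).1
      · exact (Finset.mem_sdiff.1 (hall p.1 p.2)).1
    obtain ⟨i₀, k₀, t1, _, _⟩ := exists_top ha hb (w, d, e)
    have h1 := hall i₀.succ k₀.succ
    rw [Finset.mem_sdiff] at h1
    apply h1.2
    rw [Finset.mem_image]
    exact ⟨(w, d, e), hc, t1⟩
  · intro j hj
    -- number of chosen points in block j
    have hcount : B.M j ≤ (A₀.filter (fun m => 4 * B.N j ≤ m ∧ m < 5 * B.N j)).card := by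
      have : (Finset.univ.image fun r : Fin (B.M j) => B.e j r (ω ⟨⟨j, hj⟩, r⟩)) ⊆
          A₀.filter (fun m => 4 * B.N j ≤ m ∧ m < 5 * B.N j) := by
        intro m hm
        rw [Finset.mem_image] at hm
        obtain ⟨r, _, rfl⟩ := hm
        rw [Finset.mem_filter]
        refine ⟨?_, B.he1 _ _ _, B.he2 _ _ _⟩
        rw [hA₀]
        unfold chosen
        rw [Finset.mem_image]
        exact ⟨⟨⟨j, hj⟩, r⟩, Finset.mem_univ _, rfl⟩
      refine le_trans (le_of_eq ?_) (Finset.card_le_card this)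
      rw [Finset.card_image_of_injective]
      · simp
      · intro r r' h
        exact (B.hinj _ _ _ _ _ h).1
    -- number of removed points in block j
    set badj := bad.filter (fun c => B.inB j (top c)) with hbadj
    have hbadcard : 2 * badj.card ≤ B.M j := by
      rcases Nat.eq_zero_or_pos (B.M j) with hM | hM
      · -- no point in block j
        have : badj = ∅ := by
          rw [Finset.eq_empty_iff_forall_notMem]
          intro c hc
          rw [hbadj, Finset.mem_filter, hbad, Finset.mem_filter, B.mem_conf ha hb] at hc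
          obtain ⟨⟨⟨_, _, _, _, h5⟩, _⟩, h6⟩ := hc
          obtain ⟨i₀, k₀, t1, _, _⟩ := exists_top ha hb c
          have h7 := h5 i₀.succ k₀.succ
          rw [← t1] at h7
          obtain ⟨r, _, _⟩ := B.mem_block h7 h6
          rw [hM] at r
          exact r.elim0
        rw [this]; simp
      · have hM' : (0 : ℝ) < B.M j := by exact_mod_cast hM
        have h1 : ∑ c ∈ badj, lam c ≤ ∑ c ∈ bad, lam c :=
          Finset.sum_le_sum_of_subset_of_nonneg (Finset.filter_subset _ _)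
            fun c _ _ => hlam0 c
        have h2 : ∑ c ∈ badj, lam c = badj.card * (2 / (B.M j : ℝ)) := by
          rw [Finset.sum_congr rfl (g := fun _ => 2 / (B.M j : ℝ)), Finset.sum_const,
            nsmul_eq_mul]
          intro c hc
          rw [hbadj, Finset.mem_filter] at hc
          exact hlamj c j hj hc.2
        have h3 : (badj.card : ℝ) * (2 / (B.M j : ℝ)) < 1 := by
          rw [← h2]; exact h1.trans_lt hω1
        have h4 : (badj.card : ℝ) * 2 < B.M j := by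
          rw [← mul_div_assoc, div_lt_one hM'] at h3
          exact h3
        have h5 : badj.card * 2 < B.M j := by exact_mod_cast h4
        omega
    have hrem : ((bad.image top).filter (fun m => 4 * B.N j ≤ m ∧ m < 5 * B.N j)).card ≤
        badj.card := by
      have : (bad.image top).filter (fun m => 4 * B.N j ≤ m ∧ m < 5 * B.N j) ⊆
          badj.image top := by
        intro m hm
        rw [Finset.mem_filter, Finset.mem_image] at hm
        obtain ⟨⟨c, hc, rfl⟩, h2⟩ := hm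
        rw [Finset.mem_image]
        refine ⟨c, ?_, rfl⟩
        rw [hbadj, Finset.mem_filter]
        exact ⟨hc, h2⟩
      exact (Finset.card_le_card this).trans Finset.card_image_le
    have hfin : (A₀.filter (fun m => 4 * B.N j ≤ m ∧ m < 5 * B.N j)).card ≤
        ((A₀ \ bad.image top).filter (fun m => 4 * B.N j ≤ m ∧ m < 5 * B.N j)).card +
        ((bad.image top).filter (fun m => 4 * B.N j ≤ m ∧ m < 5 * B.N j)).card := by
      refine le_trans (Finset.card_le_card ?_) (Finset.card_union_le _ _)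
      intro m hm
      rw [Finset.mem_filter] at hm
      rw [Finset.mem_union, Finset.mem_filter, Finset.mem_filter, Finset.mem_sdiff]
      by_cases h : m ∈ bad.image top
      · right; exact ⟨h, hm.2⟩
      · left; exact ⟨⟨hm.1, h⟩, hm.2⟩
    omega

end Blocks

end Pool.Agent.T2h50.CHG
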