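import Mathlib

set_option autoImplicit false

/-!
# Weighted count of grids `w + D_i + E_j` in `[1, n]`

With `β = (a + b) / (a b + a + b)` the sum of the weights `∏ (w + D_i + E_j) ^ (-β)` over all
grids with `(a + 1) (b + 1)` points in `[1, n]` is at most `C n ^ (1 - β)`.
-/

namespace Pool.Agent.T2h50.CHG

open Finset Real

noncomputable def beta (a b : ℕ) : ℝ := ((a : ℝ) + b) / ((a : ℝ) * b + a + b)
noncomputable def tau (a b : ℕ) : ℝ := ((a : ℝ) * b) / (2 * ((a : ℝ) + b) ^ 2)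
noncomputable def theta (a b : ℕ) : ℝ := (a : ℝ) / ((a : ℝ) + b)
noncomputable def sexp (a b : ℕ) : ℝ := 1 - beta a b * tau a b
noncomputable def kappa (a b : ℕ) : ℝ := beta a b + beta a b * ((a : ℝ) + b) * tau a b

section params
variable {a b : ℕ} (ha : 1 ≤ a) (hb : 1 ≤ b)
include ha hb

lemma A_pos : (0 : ℝ) < a ∧ (0 : ℝ) < b := by
  constructor
  · exact_mod_cast ha
  · exact_mod_cast hb

lemma beta_pos : 0 < beta a b := by
  obtain ⟨h1, h2⟩ := A_pos ha hb
  unfold beta; positivity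

lemma beta_lt_one : beta a b < 1 := by
  obtain ⟨h1, h2⟩ := A_pos ha hb
  unfold beta
  rw [div_lt_one (by positivity)]
  nlinarith [mul_pos h1 h2]

lemma tau_pos : 0 < tau a b := by
  obtain ⟨h1, h2⟩ := A_pos ha hb
  unfold tau; positivity

lemma tau_lt_one : tau a b < 1 := by
  obtain ⟨h1, h2⟩ := A_pos ha hb
  unfold tau
  rw [div_lt_one (by positivity)]
  nlinarith [mul_pos h1 h2, sq_nonneg ((a : ℝ) - b)]

lemma theta_pos : 0 < theta a b := by
  obtain ⟨h1, h2⟩ := A_pos ha hb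
  unfold theta; positivity

lemma theta_lt_one : theta a b < 1 := by
  obtain ⟨h1, h2⟩ := A_pos ha hb
  unfold theta
  rw [div_lt_one (by positivity)]
  linarith

lemma sexp_eq1 : sexp a b = beta a b * (1 - tau a b) + beta a b * b * theta a b := by
  obtain ⟨h1, h2⟩ := A_pos ha hb
  have h3 : (a : ℝ) + b ≠ 0 := by positivity
  have h4 : (a : ℝ) * b + a + b ≠ 0 := by positivity
  unfold sexp beta tau theta
  field_simp
  ring

lemma sexp_eq2 : sexp a b = beta a b * (1 - tau a b) + beta a b * a * (1 - theta a b) := by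
  obtain ⟨h1, h2⟩ := A_pos ha hb
  have h3 : (a : ℝ) + b ≠ 0 := by positivity
  have h4 : (a : ℝ) * b + a + b ≠ 0 := by positivity
  unfold sexp beta tau theta
  field_simp
  ring

lemma sexp_pos : 0 < sexp a b := by
  have h1 := beta_pos ha hb
  have h2 := beta_lt_one ha hb
  have h3 := tau_pos ha hb
  have h4 := tau_lt_one ha hb
  unfold sexp
  nlinarith [mul_lt_mul'' h2 h4 h1.le h3.le]

lemma sexp_lt_one : sexp a b < 1 := by
  have h1 := beta_pos ha hb
  have h3 := tau_pos ha hb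
  unfold sexp
  nlinarith [mul_pos h1 h3]

lemma kappa_pos : 0 < kappa a b := by
  have h1 := beta_pos ha hb
  have h3 := tau_pos ha hb
  obtain ⟨h4, h5⟩ := A_pos ha hb
  unfold kappa; positivity

lemma kappa_lt_one : kappa a b < 1 := by
  obtain ⟨h1, h2⟩ := A_pos ha hb
  have h3 : (0 : ℝ) < (a : ℝ) + b := by positivity
  have h4 : (0 : ℝ) < (a : ℝ) * b + a + b := by positivity
  have : kappa a b = ((a : ℝ) + b + a * b / 2) / ((a : ℝ) * b + a + b) := by
    unfold kappa beta tau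
    field_simp
  rw [this, div_lt_one h4]
  nlinarith [mul_pos h1 h2]

omit ha hb in
lemma exp_total : ((a : ℝ) + b) * (1 - sexp a b) + (1 - kappa a b) = 1 - beta a b := by
  unfold sexp kappa
  ring

end params

/-- `∑_{m ≤ n} m ^ (-s) ≤ n ^ (1 - s) / (1 - s)` -/
lemma sum_rpow_le {s : ℝ} (h0 : 0 < s) (h1 : s < 1) (n : ℕ) :
    ∑ m ∈ Icc 1 n, (m : ℝ) ^ (-s) ≤ (n : ℝ) ^ (1 - s) / (1 - s) := by
  have hs : 0 < 1 - s := by linarith
  induction n with
  | zero => simp [Real.zero_rpow hs.ne']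
  | succ n ih =>
    rw [Finset.sum_Icc_succ_top (by omega)]
    have hn : (0 : ℝ) < (n : ℝ) + 1 := by positivity
    have key : (n : ℝ) ^ (1 - s) ≤
        ((n : ℝ) + 1) ^ (1 - s) - (1 - s) * ((n : ℝ) + 1) ^ (-s) := by
      have e1 : (n : ℝ) = ((n : ℝ) + 1) * (1 + (-1 / ((n : ℝ) + 1))) := by
        field_simp; ring
      have hnn : (0 : ℝ) ≤ 1 + (-1 / ((n : ℝ) + 1)) := by
        have : 1 / ((n : ℝ) + 1) ≤ 1 := by
          rw [div_le_one hn]; linarith [Nat.cast_nonneg (α := ℝ) n]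
        have h2 : -1 / ((n : ℝ) + 1) = - (1 / ((n : ℝ) + 1)) := by ring
        rw [h2]; linarith
      have e2 : (n : ℝ) ^ (1 - s) =
          ((n : ℝ) + 1) ^ (1 - s) * (1 + (-1 / ((n : ℝ) + 1))) ^ (1 - s) := by
        rw [← Real.mul_rpow hn.le hnn]
        congr 1
      have e3 : (1 + (-1 / ((n : ℝ) + 1))) ^ (1 - s) ≤ 1 + (1 - s) * (-1 / ((n : ℝ) + 1)) := by
        exact rpow_one_add_le_one_add_mul_self (by linarith) (by linarith) (by linarith)
      have e4 : ((n : ℝ) + 1) ^ (1 - s) = ((n : ℝ) + 1) * ((n : ℝ) + 1) ^ (-s) := by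
        rw [show (1 - s : ℝ) = 1 + (-s) by ring, Real.rpow_add hn, Real.rpow_one]
      rw [e2]
      have hp : 0 ≤ ((n : ℝ) + 1) ^ (1 - s) := by positivity
      refine (mul_le_mul_of_nonneg_left e3 hp).trans (le_of_eq ?_)
      rw [e4]
      field_simp
      ring
    have : (((n + 1 : ℕ) : ℝ)) = (n : ℝ) + 1 := by push_cast; ring
    rw [this]
    rw [le_div_iff₀ hs] at ih ⊢
    nlinarith [ih, key]

/-- the grid point -/
def pt {a b : ℕ} (w : ℕ) (d : Fin a → ℕ) (e : Fin b → ℕ) (i : Fin (a + 1)) (j : Fin (b + 1)) : ℕ :=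
  w + (Fin.cons 0 d : Fin (a + 1) → ℕ) i + (Fin.cons 0 e : Fin (b + 1) → ℕ) j

lemma prod_split {a b : ℕ} (φ : ℕ → ℝ) (w : ℕ) (d : Fin a → ℕ) (e : Fin b → ℕ) :
    ∏ i : Fin (a + 1), ∏ j : Fin (b + 1), φ (pt w d e i j) =
      φ w * (∏ j : Fin b, φ (w + e j)) *
        ((∏ i : Fin a, φ (w + d i)) * ∏ i : Fin a, ∏ j : Fin b, φ (w + d i + e j)) := by
  unfold pt
  rw [Fin.prod_univ_succ, Fin.prod_univ_succ]
  simp only [Fin.cons_zero, Fin.cons_succ, add_zero]
  congr 1
  rw [← Finset.prod_mul_distrib]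
  refine Finset.prod_congr rfl fun i _ => ?_
  rw [Fin.prod_univ_succ]
  simp only [Fin.cons_zero, Fin.cons_succ, add_zero]

/-- the truncated weight -/
noncomputable def G (s : ℝ) (n x : ℕ) : ℝ := if x ≤ n then (x : ℝ) ^ (-s) else 0

lemma G_nonneg (s : ℝ) (n x : ℕ) : 0 ≤ G s n x := by
  unfold G; split_ifs <;> positivity

lemma sum_G_le {s : ℝ} (h0 : 0 < s) (h1 : s < 1) (n w : ℕ) :
    ∑ t ∈ Icc 1 n, G s n (w + t) ≤ (n : ℝ) ^ (1 - s) / (1 - s) := by
  refine le_trans ?_ (sum_rpow_le h0 h1 n)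
  have : ∑ t ∈ Icc 1 n, G s n (w + t) = ∑ x ∈ (Icc 1 n).map (addLeftEmbedding w), G s n x := by
    rw [Finset.sum_map]; rfl
  rw [this]
  calc ∑ x ∈ (Icc 1 n).map (addLeftEmbedding w), G s n x
      = ∑ x ∈ ((Icc 1 n).map (addLeftEmbedding w)).filter (· ≤ n), G s n x := by
        rw [Finset.sum_filter]
        refine Finset.sum_congr rfl fun x _ => ?_
        unfold G; split_ifs <;> rfl
    _ ≤ ∑ x ∈ Icc 1 n, G s n x := by
        apply Finset.sum_le_sum_of_subset_of_nonneg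
        · intro x hx
          simp only [Finset.mem_filter, Finset.mem_map, Finset.mem_Icc,
            addLeftEmbedding_apply] at hx
          obtain ⟨⟨t, ht, rfl⟩, hx⟩ := hx
          rw [Finset.mem_Icc]; omega
        · intro x _ _; exact G_nonneg _ _ _
    _ = ∑ x ∈ Icc 1 n, (x : ℝ) ^ (-s) := by
        refine Finset.sum_congr rfl fun x hx => ?_
        unfold G; rw [if_pos (Finset.mem_Icc.1 hx).2]

section main
variable {a b : ℕ} (ha : 1 ≤ a) (hb : 1 ≤ b)
include ha hb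

/-- pointwise bound -/
lemma pointwise (n : ℕ) (φ : ℕ → ℝ) (h0 : ∀ m, 0 ≤ φ m)
    (h1 : ∀ m, 1 ≤ m → φ m ≤ (m : ℝ) ^ (-beta a b)) (h2 : ∀ m, n < m → φ m = 0)
    (w : ℕ) (hw : 1 ≤ w) (d : Fin a → ℕ) (e : Fin b → ℕ) :
    ∏ i : Fin (a + 1), ∏ j : Fin (b + 1), φ (pt w d e i j) ≤
      (w : ℝ) ^ (-kappa a b) * ((∏ i, G (sexp a b) n (w + d i)) *
        ∏ j, G (sexp a b) n (w + e j)) := by
  have hβ := beta_pos ha hb
  have hτ := tau_pos ha hb
  have hτ1 := tau_lt_one ha hb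
  have hθ := theta_pos ha hb
  have hθ1 := theta_lt_one ha hb
  have hRHS : 0 ≤ (w : ℝ) ^ (-kappa a b) * ((∏ i, G (sexp a b) n (w + d i)) *
        ∏ j, G (sexp a b) n (w + e j)) := by
    apply mul_nonneg (by positivity)
    exact mul_nonneg (Finset.prod_nonneg fun i _ => G_nonneg _ _ _)
      (Finset.prod_nonneg fun i _ => G_nonneg _ _ _)
  rw [prod_split]
  by_cases hd : ∀ i, w + d i ≤ n
  swap
  · push Not at hd
    obtain ⟨i, hi⟩ := hd
    have : ∏ i : Fin a, φ (w + d i) = 0 := Finset.prod_eq_zero (Finset.mem_univ i) (h2 _ hi)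
    rw [this]; simpa using hRHS
  by_cases he : ∀ j, w + e j ≤ n
  swap
  · push Not at he
    obtain ⟨i, hi⟩ := he
    have : ∏ j : Fin b, φ (w + e j) = 0 := Finset.prod_eq_zero (Finset.mem_univ i) (h2 _ hi)
    rw [this]; simpa using hRHS
  have hwpos : (0 : ℝ) < w := by exact_mod_cast hw
  -- single weights
  have single : ∀ t : ℕ, φ (w + t) ≤
      (w : ℝ) ^ (-(beta a b * tau a b)) * (((w + t : ℕ) : ℝ)) ^ (-(beta a b * (1 - tau a b))) := by
    intro t
    have hx : (w : ℝ) ≤ ((w + t : ℕ) : ℝ) := by push_cast; linarith [Nat.cast_nonneg (α := ℝ) t]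
    have hxpos : (0 : ℝ) < ((w + t : ℕ) : ℝ) := lt_of_lt_of_le hwpos hx
    refine (h1 (w + t) (by omega)).trans ?_
    have e1 : (((w + t : ℕ) : ℝ)) ^ (-beta a b) = (((w + t : ℕ) : ℝ)) ^ (-(beta a b * tau a b)) *
        (((w + t : ℕ) : ℝ)) ^ (-(beta a b * (1 - tau a b))) := by
      rw [← Real.rpow_add hxpos]; congr 1; ring
    rw [e1]
    apply mul_le_mul_of_nonneg_right _ (by positivity)
    apply Real.rpow_le_rpow_of_nonpos hwpos hx
    have := mul_pos hβ hτ
    linarith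
  have double : ∀ t u : ℕ, φ (w + t + u) ≤
      (((w + t : ℕ) : ℝ)) ^ (-(beta a b * theta a b)) *
        (((w + u : ℕ) : ℝ)) ^ (-(beta a b * (1 - theta a b))) := by
    intro t u
    have hx : (((w + t : ℕ) : ℝ)) ≤ ((w + t + u : ℕ) : ℝ) := by
      push_cast; linarith [Nat.cast_nonneg (α := ℝ) u]
    have hy : (((w + u : ℕ) : ℝ)) ≤ ((w + t + u : ℕ) : ℝ) := by
      push_cast; linarith [Nat.cast_nonneg (α := ℝ) t]
    have hxpos : (0 : ℝ) < ((w + t : ℕ) : ℝ) := by push_cast; positivity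
    have hypos : (0 : ℝ) < ((w + u : ℕ) : ℝ) := by push_cast; positivity
    have hzpos : (0 : ℝ) < ((w + t + u : ℕ) : ℝ) := lt_of_lt_of_le hxpos hx
    refine (h1 (w + t + u) (by omega)).trans ?_
    have e1 : (((w + t + u : ℕ) : ℝ)) ^ (-beta a b) =
        (((w + t + u : ℕ) : ℝ)) ^ (-(beta a b * theta a b)) *
        (((w + t + u : ℕ) : ℝ)) ^ (-(beta a b * (1 - theta a b))) := by
      rw [← Real.rpow_add hzpos]; congr 1; ring
    rw [e1]
    apply mul_le_mul _ _ (by positivity) (by positivity)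
    · apply Real.rpow_le_rpow_of_nonpos hxpos hx
      have := mul_pos hβ hθ
      linarith
    · apply Real.rpow_le_rpow_of_nonpos hypos hy
      have := mul_pos hβ (sub_pos.2 hθ1)
      linarith
  -- assemble
  set W : ℝ := (w : ℝ) with hW
  have b0 : φ w ≤ W ^ (-beta a b) := h1 w hw
  have b1 : ∏ j : Fin b, φ (w + e j) ≤
      ∏ j : Fin b, (W ^ (-(beta a b * tau a b)) *
        (((w + e j : ℕ) : ℝ)) ^ (-(beta a b * (1 - tau a b)))) :=
    Finset.prod_le_prod (fun j _ => h0 _) fun j _ => single (e j)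
  have b2 : ∏ i : Fin a, φ (w + d i) ≤
      ∏ i : Fin a, (W ^ (-(beta a b * tau a b)) *
        (((w + d i : ℕ) : ℝ)) ^ (-(beta a b * (1 - tau a b)))) :=
    Finset.prod_le_prod (fun j _ => h0 _) fun j _ => single (d j)
  have b3 : ∏ i : Fin a, ∏ j : Fin b, φ (w + d i + e j) ≤
      ∏ i : Fin a, ∏ j : Fin b, ((((w + d i : ℕ) : ℝ)) ^ (-(beta a b * theta a b)) *
        (((w + e j : ℕ) : ℝ)) ^ (-(beta a b * (1 - theta a b)))) := by
    apply Finset.prod_le_prod
    · intro i _; exact Finset.prod_nonneg fun j _ => h0 _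
    · intro i _
      apply Finset.prod_le_prod
      · intro j _; exact h0 _
      · intro j _; exact double _ _
  have hp1 : 0 ≤ ∏ j : Fin b, φ (w + e j) := Finset.prod_nonneg fun j _ => h0 _
  have hp2 : 0 ≤ ∏ i : Fin a, φ (w + d i) := Finset.prod_nonneg fun j _ => h0 _
  have hp3 : 0 ≤ ∏ i : Fin a, ∏ j : Fin b, φ (w + d i + e j) :=
    Finset.prod_nonneg fun i _ => Finset.prod_nonneg fun j _ => h0 _
  have step : φ w * (∏ j : Fin b, φ (w + e j)) *
        ((∏ i : Fin a, φ (w + d i)) * ∏ i : Fin a, ∏ j : Fin b, φ (w + d i + e j)) ≤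
      W ^ (-beta a b) * (∏ j : Fin b, (W ^ (-(beta a b * tau a b)) *
        (((w + e j : ℕ) : ℝ)) ^ (-(beta a b * (1 - tau a b))))) *
        ((∏ i : Fin a, (W ^ (-(beta a b * tau a b)) *
        (((w + d i : ℕ) : ℝ)) ^ (-(beta a b * (1 - tau a b))))) *
        ∏ i : Fin a, ∏ j : Fin b, ((((w + d i : ℕ) : ℝ)) ^ (-(beta a b * theta a b)) *
        (((w + e j : ℕ) : ℝ)) ^ (-(beta a b * (1 - theta a b))))) := by
    apply mul_le_mul
    · exact mul_le_mul b0 b1 hp1 (by positivity)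
    · exact mul_le_mul b2 b3 hp3 (by positivity)
    · positivity
    · positivity
  refine step.trans (le_of_eq ?_)
  -- compute exponents
  have c1 : ∏ j : Fin b, (W ^ (-(beta a b * tau a b)) *
        (((w + e j : ℕ) : ℝ)) ^ (-(beta a b * (1 - tau a b)))) =
      W ^ (-(beta a b * tau a b) * b) *
        ∏ j : Fin b, (((w + e j : ℕ) : ℝ)) ^ (-(beta a b * (1 - tau a b))) := by
    rw [Finset.prod_mul_distrib]
    congr 1
    rw [Finset.prod_const, Finset.card_univ, Fintype.card_fin, Real.rpow_mul_natCast hwpos.le]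
  have c2 : ∏ i : Fin a, (W ^ (-(beta a b * tau a b)) *
        (((w + d i : ℕ) : ℝ)) ^ (-(beta a b * (1 - tau a b)))) =
      W ^ (-(beta a b * tau a b) * a) *
        ∏ i : Fin a, (((w + d i : ℕ) : ℝ)) ^ (-(beta a b * (1 - tau a b))) := by
    rw [Finset.prod_mul_distrib]
    congr 1
    rw [Finset.prod_const, Finset.card_univ, Fintype.card_fin, Real.rpow_mul_natCast hwpos.le]
  have c3 : ∏ i : Fin a, ∏ j : Fin b, ((((w + d i : ℕ) : ℝ)) ^ (-(beta a b * theta a b)) *
        (((w + e j : ℕ) : ℝ)) ^ (-(beta a b * (1 - theta a b)))) =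
      (∏ i : Fin a, (((w + d i : ℕ) : ℝ)) ^ (-(beta a b * theta a b) * b)) *
        ∏ j : Fin b, (((w + e j : ℕ) : ℝ)) ^ (-(beta a b * (1 - theta a b)) * a) := by
    simp_rw [Finset.prod_mul_distrib]
    congr 1
    · refine Finset.prod_congr rfl fun i _ => ?_
      rw [Finset.prod_const, Finset.card_univ, Fintype.card_fin,
        Real.rpow_mul_natCast (by positivity)]
    · rw [Finset.prod_const, Finset.card_univ, Fintype.card_fin, ← Finset.prod_pow]
      refine Finset.prod_congr rfl fun j _ => ?_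
      rw [Real.rpow_mul_natCast (by positivity)]
  have g1 : ∏ i : Fin a, G (sexp a b) n (w + d i) =
      (∏ i : Fin a, (((w + d i : ℕ) : ℝ)) ^ (-(beta a b * (1 - tau a b)))) *
      ∏ i : Fin a, (((w + d i : ℕ) : ℝ)) ^ (-(beta a b * theta a b) * b) := by
    rw [← Finset.prod_mul_distrib]
    refine Finset.prod_congr rfl fun i _ => ?_
    have : (0 : ℝ) < ((w + d i : ℕ) : ℝ) := by push_cast; positivity
    unfold G
    rw [if_pos (hd i), ← Real.rpow_add this, sexp_eq1 ha hb]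
    congr 1; ring
  have g2 : ∏ j : Fin b, G (sexp a b) n (w + e j) =
      (∏ j : Fin b, (((w + e j : ℕ) : ℝ)) ^ (-(beta a b * (1 - tau a b)))) *
      ∏ j : Fin b, (((w + e j : ℕ) : ℝ)) ^ (-(beta a b * (1 - theta a b)) * a) := by
    rw [← Finset.prod_mul_distrib]
    refine Finset.prod_congr rfl fun j _ => ?_
    have : (0 : ℝ) < ((w + e j : ℕ) : ℝ) := by push_cast; positivity
    unfold G
    rw [if_pos (he j), ← Real.rpow_add this, sexp_eq2 ha hb]
    congr 1; ring
  have k1 : W ^ (-kappa a b) = W ^ (-beta a b) * W ^ (-(beta a b * tau a b) * b) *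
      W ^ (-(beta a b * tau a b) * a) := by
    rw [← Real.rpow_add hwpos, ← Real.rpow_add hwpos]
    congr 1
    unfold kappa; ring
  rw [c1, c2, c3, g1, g2, k1]
  ring

/-- The weighted count of all grids in `[1, n]`. -/
theorem grid_sum : ∃ C : ℝ, 0 < C ∧ ∀ (n : ℕ) (φ : ℕ → ℝ), (∀ m, 0 ≤ φ m) →
    (∀ m, 1 ≤ m → φ m ≤ (m : ℝ) ^ (-beta a b)) → (∀ m, n < m → φ m = 0) →
    ∑ w ∈ Icc 1 n, ∑ d ∈ Fintype.piFinset (fun _ : Fin a => Icc 1 n),
      ∑ e ∈ Fintype.piFinset (fun _ : Fin b => Icc 1 n),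
        ∏ i : Fin (a + 1), ∏ j : Fin (b + 1), φ (pt w d e i j) ≤
      C * (n : ℝ) ^ (1 - beta a b) := by
  have hs0 := sexp_pos ha hb
  have hs1 := sexp_lt_one ha hb
  have hk0 := kappa_pos ha hb
  have hk1 := kappa_lt_one ha hb
  set s := sexp a b with hs
  set k := kappa a b with hk
  have hs' : 0 < 1 - s := by linarith
  have hk' : 0 < 1 - k := by linarith
  refine ⟨(1 / (1 - s)) ^ (a + b) * (1 / (1 - k)), by positivity, ?_⟩
  intro n φ h0 h1 h2
  set Z : ℝ := (n : ℝ) ^ (1 - s) / (1 - s) with hZ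
  have hZ0 : 0 ≤ Z := by positivity
  have inner : ∀ w ∈ Icc 1 n, ∑ d ∈ Fintype.piFinset (fun _ : Fin a => Icc 1 n),
      ∑ e ∈ Fintype.piFinset (fun _ : Fin b => Icc 1 n),
        ∏ i : Fin (a + 1), ∏ j : Fin (b + 1), φ (pt w d e i j) ≤
      (w : ℝ) ^ (-k) * Z ^ (a + b) := by
    intro w hw
    have hw1 : 1 ≤ w := (Finset.mem_Icc.1 hw).1
    calc _ ≤ ∑ d ∈ Fintype.piFinset (fun _ : Fin a => Icc 1 n),
          ∑ e ∈ Fintype.piFinset (fun _ : Fin b => Icc 1 n),
            (w : ℝ) ^ (-k) * ((∏ i, G s n (w + d i)) * ∏ j, G s n (w + e j)) := by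
          refine Finset.sum_le_sum fun d _ => Finset.sum_le_sum fun e _ => ?_
          exact pointwise ha hb n φ h0 h1 h2 w hw1 d e
      _ = (w : ℝ) ^ (-k) * ((∑ t ∈ Icc 1 n, G s n (w + t)) ^ a *
            (∑ t ∈ Icc 1 n, G s n (w + t)) ^ b) := by
          have p1 : ∑ d ∈ Fintype.piFinset (fun _ : Fin a => Icc 1 n), ∏ i, G s n (w + d i) =
              (∑ t ∈ Icc 1 n, G s n (w + t)) ^ a := by
            have := Finset.prod_univ_sum (fun _ : Fin a => Icc 1 n)
              (fun (_ : Fin a) t => G s n (w + t))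
            rw [← this, Finset.prod_const, Finset.card_univ, Fintype.card_fin]
          have p2 : ∑ d ∈ Fintype.piFinset (fun _ : Fin b => Icc 1 n), ∏ i, G s n (w + d i) =
              (∑ t ∈ Icc 1 n, G s n (w + t)) ^ b := by
            have := Finset.prod_univ_sum (fun _ : Fin b => Icc 1 n)
              (fun (_ : Fin b) t => G s n (w + t))
            rw [← this, Finset.prod_const, Finset.card_univ, Fintype.card_fin]
          rw [← p1, ← p2, Finset.sum_mul_sum, Finset.mul_sum]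
          refine Finset.sum_congr rfl fun d _ => ?_
          rw [Finset.mul_sum]
      _ ≤ (w : ℝ) ^ (-k) * Z ^ (a + b) := by
          apply mul_le_mul_of_nonneg_left _ (by positivity)
          rw [← pow_add]
          apply pow_le_pow_left₀
          · exact Finset.sum_nonneg fun t _ => G_nonneg _ _ _
          · exact sum_G_le hs0 hs1 n w
  calc _ ≤ ∑ w ∈ Icc 1 n, (w : ℝ) ^ (-k) * Z ^ (a + b) := Finset.sum_le_sum inner
    _ = (∑ w ∈ Icc 1 n, (w : ℝ) ^ (-k)) * Z ^ (a + b) := by rw [Finset.sum_mul]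
    _ ≤ ((n : ℝ) ^ (1 - k) / (1 - k)) * Z ^ (a + b) := by
        apply mul_le_mul_of_nonneg_right (sum_rpow_le hk0 hk1 n) (by positivity)
    _ = (1 / (1 - s)) ^ (a + b) * (1 / (1 - k)) * (n : ℝ) ^ (1 - beta a b) := by
        have e1 : Z ^ (a + b) = ((n : ℝ) ^ ((1 - s) * ((a + b : ℕ) : ℝ))) *
            (1 / (1 - s)) ^ (a + b) := by
          rw [hZ, Real.rpow_mul_natCast (by positivity), ← mul_pow]
          congr 1
          ring
        rcases Nat.eq_zero_or_pos n with hn | hn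
        · subst hn
          have h3 : (1 - k) ≠ 0 := hk'.ne'
          have h4 : (1 - beta a b) ≠ 0 := by
            have := beta_lt_one ha hb
            linarith
          simp [Real.zero_rpow h3, Real.zero_rpow h4]
        have hn' : (0 : ℝ) < n := by exact_mod_cast hn
        have e2 : (n : ℝ) ^ (1 - beta a b) = (n : ℝ) ^ (1 - k) *
            (n : ℝ) ^ ((1 - s) * ((a + b : ℕ) : ℝ)) := by
          rw [← Real.rpow_add hn', ← exp_total (a := a) (b := b)]
          congr 1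
          push_cast
          ring
        rw [e1, e2]
        ring

end main

end Pool.Agent.T2h50.CHG
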